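import Mathlib
import Pool.Agent.H452R2.Om.Mert
import Pool.Agent.H452R2.Om.RepsLow

/-!
The sum of the reciprocals of the primes `1 mod 4`: upper bound.
-/

set_option autoImplicit false

open Finset
open Pool.Agent.H383.Gauss (A A_finite mem_A rA)
open Pool.Agent.H452R2.Om (OP rA_prod_ge zz)

namespace Run7.h113

/-- the box -/
lemma box_mem {n m : ℕ} (hm : m ≤ n) {z : GaussianInt} (hz : z ∈ A m) :
    (z.re, z.im) ∈ (Icc (-(Nat.sqrt n : ℤ)) (Nat.sqrt n)) ×ˢ (Icc (-(Nat.sqrt n : ℤ)) (Nat.sqrt n)) := by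
  rw [mem_A, Pool.Agent.H383.Gauss.norm_eq] at hz
  have hk : ∀ x : ℤ, x ^ 2 ≤ n → x ∈ Icc (-(Nat.sqrt n : ℤ)) (Nat.sqrt n) := by
    intro x hx
    have h1 : x.natAbs ≤ Nat.sqrt n := by
      rw [Nat.le_sqrt]
      have h2 : ((x.natAbs : ℤ)) * x.natAbs = x * x := Int.natAbs_mul_self' x
      have : ((x.natAbs * x.natAbs : ℕ) : ℤ) ≤ n := by
        rw [Nat.cast_mul, h2]
        nlinarith
      exact_mod_cast this
    rw [mem_Icc]
    omega
  have hmn : (m:ℤ) ≤ n := by exact_mod_cast hm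
  rw [mem_product]
  exact ⟨hk _ (by nlinarith [sq_nonneg z.im]), hk _ (by nlinarith [sq_nonneg z.re])⟩

/-- the number of lattice points in a disc -/
lemma sum_rA_le (n : ℕ) (hn : 1 ≤ n) : ∑ m ∈ Icc 1 n, rA m ≤ 9 * n := by
  classical
  set B : Finset (ℤ × ℤ) := (Icc (-(Nat.sqrt n : ℤ)) (Nat.sqrt n)) ×ˢ (Icc (-(Nat.sqrt n : ℤ)) (Nat.sqrt n)) with hB
  set f : GaussianInt → ℤ × ℤ := fun z => (z.re, z.im) with hf
  have hfi : Function.Injective f := by
    intro z w h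
    simp only [hf, Prod.mk.injEq] at h
    exact Zsqrtd.ext h.1 h.2
  have h1 : ∀ m ∈ Icc 1 n, rA m ≤ ((B.filter (fun p => p.1 ^ 2 + p.2 ^ 2 = (m:ℤ))).card : ℝ) := by
    intro m hm
    unfold rA
    have h2 : (A m).ncard ≤ (B.filter (fun p => p.1 ^ 2 + p.2 ^ 2 = (m:ℤ))).card := by
      rw [← Set.ncard_image_of_injective (A m) hfi, ← Set.ncard_coe_finset]
      apply Set.ncard_le_ncard _ (Finset.finite_toSet _)
      rintro _ ⟨z, hz, rfl⟩
      have h3 := box_mem (mem_Icc.mp hm).2 hz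
      rw [mem_A, Pool.Agent.H383.Gauss.norm_eq] at hz
      simp only [coe_filter, Set.mem_ofPred_eq, hf]
      exact ⟨h3, hz⟩
    exact_mod_cast h2
  have h2 : ∑ m ∈ Icc 1 n, (B.filter (fun p => p.1 ^ 2 + p.2 ^ 2 = (m:ℤ))).card ≤ B.card := by
    rw [← card_biUnion]
    · exact card_le_card (fun p hp => by
        rw [mem_biUnion] at hp
        obtain ⟨m, -, hm⟩ := hp
        exact (mem_filter.mp hm).1)
    · intro m _ m' _ hmm
      rw [Function.onFun, disjoint_left]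
      intro p hp hp'
      rw [mem_filter] at hp hp'
      exact hmm (by exact_mod_cast hp.2.symm.trans hp'.2)
  have h3 : B.card = (2 * Nat.sqrt n + 1) * (2 * Nat.sqrt n + 1) := by
    rw [hB, card_product, Int.card_Icc]
    have : ((Nat.sqrt n : ℤ) + 1 - -(Nat.sqrt n : ℤ)).toNat = 2 * Nat.sqrt n + 1 := by omega
    rw [this]
  have h4 : Nat.sqrt n * Nat.sqrt n ≤ n := Nat.sqrt_le n
  have h5 : 1 ≤ Nat.sqrt n := by
    rw [Nat.le_sqrt]; omega
  have h6 : (2 * Nat.sqrt n + 1) * (2 * Nat.sqrt n + 1) ≤ 9 * n := by nlinarith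
  calc ∑ m ∈ Icc 1 n, rA m ≤ ∑ m ∈ Icc 1 n, ((B.filter (fun p => p.1 ^ 2 + p.2 ^ 2 = (m:ℤ))).card : ℝ) := sum_le_sum h1
    _ = ((∑ m ∈ Icc 1 n, (B.filter (fun p => p.1 ^ 2 + p.2 ^ 2 = (m:ℤ))).card : ℕ) : ℝ) := by push_cast; rfl
    _ ≤ ((9 * n : ℕ) : ℝ) := by exact_mod_cast (h2.trans (h3 ▸ h6))
    _ = 9 * n := by push_cast; ring

/-- Dirichlet series near `1` -/
lemma sum_rA_rpow {s : ℝ} (hs : 1 < s) (hs2 : s ≤ 2) (T : ℕ) :
    ∑ m ∈ Icc 1 T, rA m * (m:ℝ) ^ (-s) ≤ 36 / (s - 1) := by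
  classical
  -- dyadic decomposition
  have hs0 : 0 < s - 1 := by linarith
  set J := Nat.log 2 T + 1 with hJ
  have h1 : ∀ m ∈ Icc 1 T, rA m * (m:ℝ) ^ (-s) ≤
      ∑ j ∈ range J, (if m ∈ Icc 1 (2 ^ (j + 1)) then rA m * ((2:ℝ) ^ j) ^ (-s) else 0) := by
    intro m hm
    rw [mem_Icc] at hm
    have hm0 : m ≠ 0 := by omega
    have hr := Pool.Agent.H383.Gauss.rA_nonneg m
    have hmem : Nat.log 2 m ∈ range J := by
      rw [mem_range, hJ]
      exact Nat.lt_succ_of_le (Nat.log_mono_right hm.2)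
    have h2 := single_le_sum (f := fun j => (if m ∈ Icc 1 (2 ^ (j + 1)) then rA m * ((2:ℝ) ^ j) ^ (-s) else 0))
      (fun j _ => by
        split_ifs
        · exact mul_nonneg hr (by positivity)
        · exact le_rfl) hmem
    refine le_trans ?_ h2
    have h3 : m ∈ Icc 1 (2 ^ (Nat.log 2 m + 1)) := by
      rw [mem_Icc]
      exact ⟨hm.1, (Nat.lt_pow_succ_log_self (by norm_num) m).le⟩
    simp only [if_pos h3]
    apply mul_le_mul_of_nonneg_left _ hr
    apply Real.rpow_le_rpow_of_nonpos (by positivity)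
    · have : 2 ^ Nat.log 2 m ≤ m := Nat.pow_log_le_self 2 hm0
      exact_mod_cast this
    · linarith
  refine (sum_le_sum h1).trans ?_
  rw [sum_comm]
  have h2 : ∀ j ∈ range J, ∑ m ∈ Icc 1 T, (if m ∈ Icc 1 (2 ^ (j + 1)) then rA m * ((2:ℝ) ^ j) ^ (-s) else 0) ≤
      18 * ((2:ℝ) ^ (-(s - 1))) ^ j := by
    intro j _
    rw [← sum_filter]
    have h3 : ∑ m ∈ (Icc 1 T).filter (fun m => m ∈ Icc 1 (2 ^ (j + 1))), rA m * ((2:ℝ) ^ j) ^ (-s) ≤
        ∑ m ∈ Icc 1 (2 ^ (j + 1)), rA m * ((2:ℝ) ^ j) ^ (-s) := by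
      apply sum_le_sum_of_subset_of_nonneg
      · intro m hm
        exact (mem_filter.mp hm).2
      · intro m _ _
        exact mul_nonneg (Pool.Agent.H383.Gauss.rA_nonneg m) (by positivity)
    refine h3.trans ?_
    rw [← sum_mul]
    have h4 := sum_rA_le (2 ^ (j + 1)) Nat.one_le_two_pow
    calc (∑ m ∈ Icc 1 (2 ^ (j + 1)), rA m) * ((2:ℝ) ^ j) ^ (-s)
        ≤ (9 * ((2 ^ (j + 1) : ℕ) : ℝ)) * ((2:ℝ) ^ j) ^ (-s) := mul_le_mul_of_nonneg_right h4 (by positivity)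
      _ = 18 * ((2:ℝ) ^ (-(s - 1))) ^ j := by
          push_cast
          have e1 : ((2:ℝ) ^ j) ^ (-s) = ((2:ℝ) ^ (-s)) ^ j := by
            rw [← Real.rpow_natCast, ← Real.rpow_mul (by norm_num), ← Real.rpow_natCast, ← Real.rpow_mul (by norm_num)]
            congr 1; ring
          have e2 : (2:ℝ) ^ (-(s - 1)) = 2 * (2:ℝ) ^ (-s) := by
            rw [show -(s - 1) = 1 + -s by ring, Real.rpow_add (by norm_num), Real.rpow_one]
          rw [e1, e2, mul_pow, pow_succ]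
          ring
  refine (sum_le_sum h2).trans ?_
  rw [← mul_sum]
  have hq1 : (2:ℝ) ^ (-(s - 1)) < 1 := Real.rpow_lt_one_of_one_lt_of_neg (by norm_num) (by linarith)
  have hq0 : (0:ℝ) ≤ (2:ℝ) ^ (-(s - 1)) := by positivity
  have h3 : ∑ j ∈ range J, ((2:ℝ) ^ (-(s - 1))) ^ j ≤ (1 - (2:ℝ) ^ (-(s - 1)))⁻¹ := by
    have := (summable_geometric_of_lt_one hq0 hq1).sum_le_tsum (range J) (fun _ _ => by positivity)
    rwa [tsum_geometric_of_lt_one hq0 hq1] at this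
  -- 1 - 2^{-x} ≥ x/2 on [0,1]
  have h4 : (s - 1) / 2 ≤ 1 - (2:ℝ) ^ (-(s - 1)) := by
    -- concavity: 2^{-x} ≤ 1 - x/2
    have h5 : (2:ℝ) ^ (-(s - 1)) = ((1 + (-1/2 : ℝ))) ^ (s - 1) := by
      rw [Real.rpow_neg (by norm_num), ← Real.inv_rpow (by norm_num)]
      norm_num
    rw [h5]
    have h6 := rpow_one_add_le_one_add_mul_self (s := (-1/2 : ℝ)) (by norm_num) (p := s - 1) hs0.le (by linarith)
    linarith
  have h5 : (1 - (2:ℝ) ^ (-(s - 1)))⁻¹ ≤ 2 / (s - 1) := by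
    rw [inv_le_comm₀ (by linarith) (by positivity)]
    rw [inv_div]
    exact h4
  calc 18 * ∑ j ∈ range J, ((2:ℝ) ^ (-(s - 1))) ^ j ≤ 18 * (2 / (s - 1)) := by
        apply mul_le_mul_of_nonneg_left (h3.trans h5) (by norm_num)
    _ = 36 / (s - 1) := by ring

lemma prod_inj_primes {P : Finset ℕ} (hP : ∀ p ∈ P, p.Prime) : Set.InjOn (fun S : Finset ℕ => ∏ p ∈ S, p) (P.powerset : Set (Finset ℕ)) := by
  intro S hS T hT h
  have hS' : ∀ p ∈ S, p.Prime := fun p hp => hP p (mem_powerset.mp (by exact_mod_cast hS) hp)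
  have hT' : ∀ p ∈ T, p.Prime := fun p hp => hP p (mem_powerset.mp (by exact_mod_cast hT) hp)
  have h1 := Nat.primeFactors_prod hS'
  have h2 := Nat.primeFactors_prod hT'
  simp only at h
  rw [← h1, h, h2]

lemma prod_two_le (y : ℕ) {s : ℝ} (hs : 1 < s) (hs2 : s ≤ 2) :
    ∏ p ∈ OP (fun p => p % 4 = 1) y, (1 + 2 * (p:ℝ) ^ (-s)) ≤ 36 / (s - 1) := by
  classical
  set P := OP (fun p => p % 4 = 1) y with hP
  have hPp : ∀ p ∈ P, p.Prime ∧ p % 4 = 1 := by
    intro p hp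
    rw [hP] at hp
    unfold OP at hp
    exact (mem_filter.mp hp).2
  rw [prod_one_add]
  set T := ∏ p ∈ P, p with hT
  have hTpos : ∀ S ∈ P.powerset, 1 ≤ ∏ p ∈ S, p := by
    intro S hS
    apply Nat.one_le_iff_ne_zero.mpr
    rw [prod_ne_zero_iff]
    intro p hp
    exact (hPp p (mem_powerset.mp hS hp)).1.ne_zero
  have h1 : ∀ S ∈ P.powerset, ∏ p ∈ S, (2 * (p:ℝ) ^ (-s)) ≤ rA (∏ p ∈ S, p) * ((∏ p ∈ S, p : ℕ) : ℝ) ^ (-s) := by
    intro S hS
    rw [prod_mul_distrib, prod_const]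
    have e1 : ∏ p ∈ S, (p:ℝ) ^ (-s) = ((∏ p ∈ S, p : ℕ) : ℝ) ^ (-s) := by
      push_cast
      rw [Real.finsetProd_rpow _ _ (fun i _ => Nat.cast_nonneg i)]
    rw [e1]
    exact mul_le_mul_of_nonneg_right (rA_prod_ge S fun p hp => hPp p (mem_powerset.mp hS hp)) (by positivity)
  refine (sum_le_sum h1).trans ?_
  have h2 : ∑ S ∈ P.powerset, rA (∏ p ∈ S, p) * ((∏ p ∈ S, p : ℕ) : ℝ) ^ (-s) =
      ∑ m ∈ P.powerset.image (fun S => ∏ p ∈ S, p), rA m * (m:ℝ) ^ (-s) := by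
    rw [sum_image (prod_inj_primes fun p hp => (hPp p hp).1)]
  rw [h2]
  refine le_trans ?_ (sum_rA_rpow hs hs2 T)
  apply sum_le_sum_of_subset_of_nonneg
  · intro m hm
    rw [mem_image] at hm
    obtain ⟨S, hS, rfl⟩ := hm
    rw [mem_Icc]
    refine ⟨hTpos S hS, ?_⟩
    apply Nat.le_of_dvd (hTpos P (mem_powerset_self P))
    exact prod_dvd_prod_of_subset _ _ _ (mem_powerset.mp hS)
  · intro m _ _
    exact mul_nonneg (Pool.Agent.H383.Gauss.rA_nonneg m) (by positivity)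

/-- **Mertens bound for the primes `1 mod 4`** -/
theorem mert_one_up : ∃ C : ℝ, ∀ y : ℕ, 3 ≤ y →
    ∑ p ∈ OP (fun p => p % 4 = 1) y, 1 / (p:ℝ) ≤ (1/2) * Real.log (Real.log y) + C := by
  obtain ⟨C, hC⟩ := Pool.Agent.Helper256.KM.mertens_log
  refine ⟨(1/2) * Real.log 36 + 2 + (1 + |C|), ?_⟩
  intro y hy
  have hy3 : (3:ℝ) ≤ y := by exact_mod_cast hy
  have hl1 : 1 ≤ Real.log y := by
    rw [Real.le_log_iff_exp_le (by linarith)]
    have := Real.exp_one_lt_d9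
    linarith
  have hl0 : 0 < Real.log y := by linarith
  set s : ℝ := 1 + 1 / Real.log y with hs
  have hs1 : 1 < s := by
    have : 0 < 1 / Real.log y := by positivity
    linarith
  have hs2 : s ≤ 2 := by
    have : 1 / Real.log y ≤ 1 := by rw [div_le_one hl0]; exact hl1
    linarith
  have h1 := prod_two_le y hs1 hs2
  have e1 : (36:ℝ) / (s - 1) = 36 * Real.log y := by
    rw [hs]; field_simp; ring
  rw [e1] at h1
  set P := OP (fun p => p % 4 = 1) y with hP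
  have hPp : ∀ p ∈ P, 3 ≤ p ∧ p ≤ y ∧ p.Prime := by
    intro p hp
    rw [hP] at hp
    unfold OP at hp
    rw [mem_filter, mem_Icc] at hp
    exact ⟨hp.1.1, hp.1.2, hp.2.1⟩
  have hP0 : ∀ p ∈ P, (0:ℝ) < p := fun p hp => by
    have := (hPp p hp).1
    exact_mod_cast (by omega : 0 < p)
  -- logarithm of the product
  have h2 : 2 * ∑ p ∈ P, (p:ℝ) ^ (-s) - 4 ≤ Real.log 36 + Real.log (Real.log y) := by
    rw [← Real.log_mul (by norm_num) hl0.ne']
    have h3 : ∑ p ∈ P, Real.log (1 + 2 * (p:ℝ) ^ (-s)) ≤ Real.log (36 * Real.log y) := by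
      rw [← Real.log_prod (fun p hp => by
        have := hP0 p hp
        positivity)]
      apply Real.log_le_log _ h1
      apply prod_pos
      intro p hp
      have := hP0 p hp
      positivity
    refine le_trans ?_ h3
    have h4 : ∑ p ∈ P, (2 * (p:ℝ) ^ (-s) - 2 * (1 / (p:ℝ) ^ 2)) ≤ ∑ p ∈ P, Real.log (1 + 2 * (p:ℝ) ^ (-s)) := by
      apply sum_le_sum
      intro p hp
      have hp0 := hP0 p hp
      have hp1 : (1:ℝ) ≤ p := by
        have := (hPp p hp).1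
        exact_mod_cast (by omega : 1 ≤ p)
      have h5 := Pool.Agent.H452R2.Om.Mert.log_one_add_ge (2 * (p:ℝ) ^ (-s)) (by positivity)
      refine le_trans ?_ h5
      have h6 : ((p:ℝ) ^ (-s)) ^ 2 ≤ 1 / (p:ℝ) ^ 2 := by
        have : (p:ℝ) ^ (-s) ≤ (p:ℝ) ^ (-1:ℝ) := Real.rpow_le_rpow_of_exponent_le hp1 (by linarith)
        rw [Real.rpow_neg_one] at this
        calc ((p:ℝ) ^ (-s)) ^ 2 ≤ ((p:ℝ)⁻¹) ^ 2 := pow_le_pow_left₀ (by positivity) this 2
          _ = _ := by rw [inv_pow, one_div]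
      nlinarith
    refine le_trans ?_ h4
    rw [sum_sub_distrib, ← mul_sum, ← mul_sum]
    have h7 := Pool.Agent.H452R2.Om.Mert.sq_sum (fun p => p % 4 = 1) y
    linarith
  have h3 : ∑ p ∈ P, (1 / (p:ℝ) - (p:ℝ) ^ (-s)) ≤ 1 + |C| := by
    have h4 : ∀ p ∈ P, 1 / (p:ℝ) - (p:ℝ) ^ (-s) ≤ (1 / Real.log y) * (Real.log p / p) := by
      intro p hp
      have hp0 := hP0 p hp
      have e2 : (p:ℝ) ^ (-s) = (1 / (p:ℝ)) * Real.exp (-(Real.log p / Real.log y)) := by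
        rw [hs, show -(1 + 1 / Real.log y) = -1 + -(1 / Real.log y) by ring, Real.rpow_add hp0, Real.rpow_neg_one,
          Real.rpow_def_of_pos hp0]
        have e3 : Real.log p * -(1 / Real.log y) = -(Real.log p / Real.log y) := by ring
        rw [e3, one_div]
      rw [e2]
      have h5 := Real.add_one_le_exp (-(Real.log p / Real.log y))
      have h6 : 1 / (p:ℝ) - (1 / (p:ℝ)) * Real.exp (-(Real.log p / Real.log y)) =
          (1 / (p:ℝ)) * (1 - Real.exp (-(Real.log p / Real.log y))) := by ring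
      rw [h6]
      calc (1 / (p:ℝ)) * (1 - Real.exp (-(Real.log p / Real.log y))) ≤ (1 / (p:ℝ)) * (Real.log p / Real.log y) := by
            apply mul_le_mul_of_nonneg_left _ (by positivity)
            linarith
        _ = _ := by ring
    refine (sum_le_sum h4).trans ?_
    rw [← mul_sum]
    have h5 : ∑ p ∈ P, Real.log p / (p:ℝ) ≤ ∑ p ∈ (Finset.Icc 1 y).filter Nat.Prime, Real.log p / p := by
      apply sum_le_sum_of_subset_of_nonneg
      · intro p hp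
        obtain ⟨g1, g2, g3⟩ := hPp p hp
        rw [mem_filter, mem_Icc]
        exact ⟨⟨by omega, g2⟩, g3⟩
      · intro p hp _
        rw [mem_filter, mem_Icc] at hp
        have : (1:ℝ) ≤ p := by exact_mod_cast hp.1.1
        exact div_nonneg (Real.log_nonneg this) (by linarith)
    have h6 := (abs_le.mp (hC y (by omega))).2
    have h7 : ∑ p ∈ P, Real.log p / (p:ℝ) ≤ Real.log y + |C| := by
      have := le_abs_self C
      linarith
    calc 1 / Real.log y * ∑ p ∈ P, Real.log p / (p:ℝ) ≤ 1 / Real.log y * (Real.log y + |C|) :=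
          mul_le_mul_of_nonneg_left h7 (by positivity)
      _ = 1 + |C| / Real.log y := by field_simp
      _ ≤ 1 + |C| := by
          have : |C| / Real.log y ≤ |C| := div_le_self (abs_nonneg _) hl1
          linarith
  rw [sum_sub_distrib] at h3
  linarith

end Run7.h113
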