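import Mathlib
import Pool.Agent.H383.Reps
import Pool.Agent.H383.Expand

/-!
Number of representations as a sum of two squares: bound by the squarefree part.
-/

set_option autoImplicit false

open Finset
open Pool.Agent.H383.Gauss (A A_finite mem_A norm_eq card_A_pow card_A_one rA)

namespace Run7.h113

/-- local factor -/
def bp (p e : ℕ) : ℕ := if p % 4 = 3 ∧ e % 2 = 1 then 0 else if p = 2 then 1 else e + 1

/-- the multiplicative bound -/
def bet (n : ℕ) : ℕ := ∏ p ∈ n.primeFactors, bp p (n.factorization p)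

lemma A_two (m : ℕ) : (A (2 * m)).ncard ≤ (A m).ncard := by
  have hpar : ∀ z ∈ A (2 * m), (z.re + z.im) % 2 = 0 ∧ (z.im - z.re) % 2 = 0 := by
    intro z hz
    rw [mem_A, norm_eq] at hz
    push_cast at hz
    have h1 : (z.re * z.re + z.im * z.im) % 2 = 0 := by
      rw [← sq, ← sq, hz]; omega
    rcases Int.emod_two_eq_zero_or_one z.re with hr | hr <;> rcases Int.emod_two_eq_zero_or_one z.im with hi | hi
    · omega
    · exfalso
      rw [Int.add_emod, Int.mul_emod, Int.mul_emod z.im, hr, hi] at h1
      norm_num at h1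
    · exfalso
      rw [Int.add_emod, Int.mul_emod, Int.mul_emod z.im, hr, hi] at h1
      norm_num at h1
    · omega
  apply Set.ncard_le_ncard_of_injOn (fun z : GaussianInt => (⟨(z.re + z.im) / 2, (z.im - z.re) / 2⟩ : GaussianInt)) _ _
    (A_finite m)
  · intro z hz
    obtain ⟨h1, h2⟩ := hpar z hz
    rw [mem_A, norm_eq] at hz ⊢
    obtain ⟨u, hu⟩ := Int.dvd_of_emod_eq_zero h1
    obtain ⟨v, hv⟩ := Int.dvd_of_emod_eq_zero h2
    have e1 : (z.re + z.im) / 2 = u := by omega
    have e2 : (z.im - z.re) / 2 = v := by omega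
    simp only [e1, e2]
    have e3 : z.re = u - v := by omega
    have e4 : z.im = u + v := by omega
    rw [e3, e4] at hz
    push_cast at hz
    linarith
  · intro z hz w hw h
    obtain ⟨h1, h2⟩ := hpar z hz
    obtain ⟨h3, h4⟩ := hpar w hw
    simp only [Zsqrtd.mk.injEq] at h
    apply Zsqrtd.ext <;> omega

lemma A_two_pow (e m : ℕ) : (A (2 ^ e * m)).ncard ≤ (A m).ncard := by
  induction e with
  | zero => simp
  | succ e ih =>
    have : 2 ^ (e + 1) * m = 2 * (2 ^ e * m) := by rw [pow_succ]; ring
    rw [this]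
    exact (A_two _).trans ih

lemma A_empty {p e m : ℕ} (hp : p.Prime) (h4 : p % 4 = 3) (he : e % 2 = 1) (hpm : ¬ p ∣ m) : A (p ^ e * m) = ∅ := by
  have : Fact p.Prime := ⟨hp⟩
  have hm : m ≠ 0 := by rintro rfl; exact hpm (dvd_zero p)
  have hpe : p ^ e ≠ 0 := pow_ne_zero _ hp.ne_zero
  ext z
  simp only [Set.mem_empty_iff_false, iff_false]
  intro hz
  rw [mem_A, norm_eq] at hz
  have h1 : p ^ e * m = z.re.natAbs ^ 2 + z.im.natAbs ^ 2 := by
    have : ((p ^ e * m : ℕ) : ℤ) = ((z.re.natAbs ^ 2 + z.im.natAbs ^ 2 : ℕ) : ℤ) := by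
      rw [← hz, Nat.cast_add, Nat.cast_pow, Nat.cast_pow, Int.natAbs_sq, Int.natAbs_sq]
    exact_mod_cast this
  have h2 := (Nat.eq_sq_add_sq_iff (n := p ^ e * m)).mp ⟨_, _, h1⟩ p (by
    rw [Nat.mem_primeFactors]
    refine ⟨hp, ?_, mul_ne_zero hpe hm⟩
    exact Dvd.dvd.mul_right (dvd_pow_self p (by omega)) m) h4
  have h3 : padicValNat p (p ^ e * m) = e := by
    rw [padicValNat.mul hpe hm, padicValNat.prime_pow, padicValNat.eq_zero_of_not_dvd hpm, add_zero]
  rw [h3, Nat.even_iff] at h2
  omega

lemma bet_mul {p e m : ℕ} (hp : p.Prime) (he : 1 ≤ e) (hpm : ¬ p ∣ m) (hm : m ≠ 0) :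
    bet (p ^ e * m) = bp p e * bet m := by
  unfold bet
  have hcop : Nat.Coprime (p ^ e) m := Nat.Coprime.pow_left e ((Nat.Prime.coprime_iff_not_dvd hp).mpr hpm)
  have hpf : (p ^ e * m).primeFactors = insert p m.primeFactors := by
    rw [Nat.Coprime.primeFactors_mul hcop, Nat.primeFactors_prime_pow (by omega) hp]
    rfl
  have hnm : p ∉ m.primeFactors := fun h => hpm (Nat.dvd_of_mem_primeFactors h)
  rw [hpf, prod_insert hnm]
  congr 1
  · congr 1
    rw [Nat.factorization_mul (pow_ne_zero _ hp.ne_zero) hm, Nat.factorization_pow]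
    simp [hp.factorization_self, Nat.factorization_eq_zero_of_not_dvd hpm]
  · apply prod_congr rfl
    intro q hq
    congr 1
    have hqp : q ≠ p := fun h => hnm (h ▸ hq)
    rw [Nat.factorization_mul (pow_ne_zero _ hp.ne_zero) hm, Nat.factorization_pow]
    simp [Nat.Prime.factorization hp, hqp.symm]

theorem A_le_bet (m : ℕ) (hm : 1 ≤ m) : (A m).ncard ≤ 4 * bet m := by
  induction m using Nat.strong_induction_on with
  | _ m ih =>
    rcases Nat.eq_or_lt_of_le hm with h1 | h1
    · rw [← h1]
      have : bet 1 = 1 := by unfold bet; simp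
      rw [this]
      simpa using card_A_one
    · set p := m.minFac with hp
      have hpp : p.Prime := Nat.minFac_prime (by omega)
      have hpm : p ∣ m := Nat.minFac_dvd m
      set e := m.factorization p with he
      set m' := m / p^e with hm'
      have hdecomp : p^e * m' = m := Nat.ordProj_mul_ordCompl_eq_self m p
      have hnd : ¬ p ∣ m' := Nat.not_dvd_ordCompl hpp (by omega)
      have he1 : 1 ≤ e := by
        rw [he]; exact (hpp.dvd_iff_one_le_factorization (by omega)).mp hpm
      have hm'pos : 1 ≤ m' := by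
        rcases Nat.eq_zero_or_pos m' with h | h
        · rw [h] at hdecomp; omega
        · exact h
      have hlt : m' < m := by
        rw [← hdecomp]
        have : 2 ≤ p^e := by
          calc 2 ≤ p := hpp.two_le
            _ = p^1 := (pow_one p).symm
            _ ≤ p^e := Nat.pow_le_pow_right hpp.pos he1
        nlinarith
      have h3 := ih m' hlt hm'pos
      rw [← hdecomp, bet_mul hpp he1 hnd (by omega)]
      unfold bp
      split_ifs with g1 g2
      · rw [A_empty hpp g1.1 g1.2 hnd]; simp
      · have h4 := A_two_pow e m'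
        rw [g2]
        omega
      · have h2 := card_A_pow hpp hnd e
        calc _ ≤ _ := h2
          _ ≤ (e+1) * (4 * bet m') := Nat.mul_le_mul_left _ h3
          _ = _ := by ring

/-- local factor of the squarefree part -/
def gp (p : ℕ) : ℕ := if p % 4 = 3 then 0 else if p = 2 then 1 else 2

/-- the squarefree part of the bound -/
def gD (D : ℕ) : ℕ := ∏ p ∈ D.primeFactors, gp p

lemma bet_le {D k : ℕ} (hD : Squarefree D) (hk : 1 ≤ k) : bet (D * k ^ 2) ≤ gD D * (k ^ 2).divisors.card := by
  classical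
  have hD0 : D ≠ 0 := hD.ne_zero
  have hk0 : k ^ 2 ≠ 0 := by positivity
  have hpf : (D * k ^ 2).primeFactors = D.primeFactors ∪ (k ^ 2).primeFactors := Nat.primeFactors_mul hD0 hk0
  set S := (D * k ^ 2).primeFactors with hS
  have h1 : gD D = ∏ p ∈ S, (if p ∈ D.primeFactors then gp p else 1) := by
    unfold gD
    rw [← prod_subset (s₁ := D.primeFactors) (s₂ := S)]
    · apply prod_congr rfl
      intro p hp
      rw [if_pos hp]
    · rw [hpf]; exact subset_union_left
    · intro p _ hp
      rw [if_neg hp]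
  have h2 : (k ^ 2).divisors.card = ∏ p ∈ S, ((k ^ 2).factorization p + 1) := by
    rw [Nat.card_divisors hk0]
    apply prod_subset
    · rw [hpf]; exact subset_union_right
    · intro p _ hp
      have : (k ^ 2).factorization p = 0 := by
        rw [← Nat.support_factorization] at hp
        exact Finsupp.notMem_support_iff.mp hp
      rw [this, zero_add]
  rw [h1, h2, ← prod_mul_distrib]
  unfold bet
  apply prod_le_prod' 
  intro p hp
  have hpp : p.Prime := Nat.prime_of_mem_primeFactors hp
  have hf : (D * k ^ 2).factorization p = D.factorization p + (k ^ 2).factorization p := by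
    rw [Nat.factorization_mul hD0 hk0]; rfl
  have hf2 : (k ^ 2).factorization p = 2 * k.factorization p := by
    rw [Nat.factorization_pow]; rfl
  have hDle := hD.natFactorization_le_one p
  rw [hf, hf2]
  unfold bp gp
  by_cases hmem : p ∈ D.primeFactors
  · have hD1 : D.factorization p = 1 := by
      have : 1 ≤ D.factorization p := by
        rw [← hpp.dvd_iff_one_le_factorization hD0]
        exact Nat.dvd_of_mem_primeFactors hmem
      omega
    rw [hD1, if_pos hmem]
    by_cases h3 : p % 4 = 3
    · rw [if_pos ⟨h3, by omega⟩]; exact Nat.zero_le _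
    · rw [if_neg (fun h => h3 h.1), if_neg h3]
      split_ifs <;> omega
  · have hD1 : D.factorization p = 0 := by
      rw [← Nat.support_factorization] at hmem
      exact Finsupp.notMem_support_iff.mp hmem
    rw [hD1, if_neg hmem, one_mul, zero_add]
    split_ifs <;> omega

/-- **bound for the number of representations** -/
theorem rA_le_gD {D k : ℕ} (hD : Squarefree D) (hk : 1 ≤ k) :
    rA (D * k ^ 2) ≤ 4 * gD D * ((k ^ 2).divisors.card : ℝ) := by
  have hD0 : D ≠ 0 := hD.ne_zero
  have h1 := A_le_bet (D * k ^ 2) (Nat.one_le_iff_ne_zero.mpr (by positivity))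
  have h2 := bet_le hD hk
  unfold rA
  have h3 : (A (D * k ^ 2)).ncard ≤ 4 * (gD D * (k ^ 2).divisors.card) := h1.trans (Nat.mul_le_mul_left _ h2)
  calc ((A (D * k ^ 2)).ncard : ℝ) ≤ ((4 * (gD D * (k ^ 2).divisors.card) : ℕ) : ℝ) := by exact_mod_cast h3
    _ = _ := by push_cast; ring

end Run7.h113
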