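import Mathlib
import Pool.Agent.Run7.h113.Ser
import Pool.Agent.Run7.h113.Reps2
import Pool.Agent.H383.GaussW
import Pool.Agent.H383.BlkB
import Pool.Agent.Helper112.Arith

/-!
The coefficients of the circle problem sorted by square classes.
-/

set_option autoImplicit false

open Finset
open Pool.Agent.H452R2.Om (zz zz_pos zz_gt_two zz_lt_three)
open Pool.Agent.H383.Gauss (InC rA rA_nonneg)
open Pool.Agent.H383.Gen (U bT inC_unique)
open Pool.Agent.H383.Circ (ag ag_nonneg)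

namespace Run7.h113

/-- weight of a square class -/
noncomputable def wt (D : ℕ) : ℝ := gD D * (D:ℝ) ^ (-(3/4):ℝ)

lemma wt_nonneg (D : ℕ) : 0 ≤ wt D := by unfold wt; positivity

lemma zz_pow : zz ^ (3/4:ℝ) = 2 := by
  unfold zz
  rw [← Real.rpow_mul (by norm_num)]
  norm_num

lemma gp_fp {p : ℕ} (hp : p.Prime) (h : gp p ≠ 0) : (gp p : ℝ) * (p:ℝ) ^ (-(3/4):ℝ) = (fp p) ^ (-(3/4):ℝ) := by
  unfold gp at h ⊢
  unfold fp
  by_cases h3 : p % 4 = 3
  · rw [if_pos h3] at h; exact absurd rfl h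
  · rw [if_neg h3]
    by_cases h2 : p = 2
    · rw [if_pos h2, if_pos h2, h2]; norm_num
    · rw [if_neg h2, if_neg h2, Real.div_rpow (Nat.cast_nonneg _) zz_pos.le, Real.rpow_neg zz_pos.le, zz_pow]
      push_cast
      field_simp

lemma gD_ne_zero {D : ℕ} : gD D ≠ 0 ↔ ∀ p ∈ D.primeFactors, gp p ≠ 0 := by
  unfold gD
  rw [prod_ne_zero_iff]

lemma gp_ne_zero {p : ℕ} : gp p ≠ 0 ↔ p % 4 ≠ 3 := by
  unfold gp
  split_ifs with h1 h2
  · simp [h1]
  · simp [h1]
  · simp [h1]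

lemma FF_nonneg (S : Finset ℕ) : 0 ≤ FF S := by
  unfold FF
  apply prod_nonneg
  intro p _
  have := zz_pos
  unfold fp
  split_ifs <;> positivity

lemma wt_eq {D : ℕ} (hD : Squarefree D) (h : gD D ≠ 0) : wt D = (FF D.primeFactors) ^ (-(3/4):ℝ) := by
  unfold wt
  have h1 : (D:ℝ) ^ (-(3/4):ℝ) = ∏ p ∈ D.primeFactors, (p:ℝ) ^ (-(3/4):ℝ) := by
    rw [Real.finsetProd_rpow _ _ (fun i _ => Nat.cast_nonneg i), ← Nat.cast_prod, Nat.prod_primeFactors_of_squarefree hD]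
  rw [h1]
  unfold gD FF
  push_cast
  rw [← prod_mul_distrib, ← Real.finsetProd_rpow]
  · apply prod_congr rfl
    intro p hp
    exact gp_fp (Nat.prime_of_mem_primeFactors hp) (gD_ne_zero.mp h p hp)
  · intro p _
    have := zz_pos
    unfold fp
    split_ifs <;> positivity

lemma pf_sub {D T : ℕ} (hT : D ≤ T) (h : gD D ≠ 0) : D.primeFactors ⊆ PT T := by
  intro p hp
  have hpp := Nat.prime_of_mem_primeFactors hp
  have h1 := gp_ne_zero.mp (gD_ne_zero.mp h p hp)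
  rw [mem_PT]
  have h2 : D ≠ 0 := by
    rintro rfl
    simp at hp
  exact ⟨⟨hpp.two_le, (Nat.le_of_dvd (Nat.pos_of_ne_zero h2) (Nat.dvd_of_mem_primeFactors hp)).trans hT⟩, hpp, h1⟩

lemma pf_inj (s : Finset ℕ) (hs : ∀ D ∈ s, Squarefree D) : Set.InjOn (fun D : ℕ => D.primeFactors) (s : Set ℕ) := by
  intro D hD D' hD' h
  simp only at h
  rw [← Nat.prod_primeFactors_of_squarefree (hs D hD), h, Nat.prod_primeFactors_of_squarefree (hs D' hD')]

/-- sum over squarefree numbers -/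
lemma sum_sqf {T : ℕ} {p : ℝ → Prop} [DecidablePred p] {q : ℝ} :
    ∑ D ∈ (Icc 1 T).filter (fun D => Squarefree D ∧ gD D ≠ 0 ∧ p (FF D.primeFactors)), (FF D.primeFactors) ^ q ≤
      ∑ S ∈ (PT T).powerset.filter (fun S => p (FF S)), (FF S) ^ q := by
  classical
  rw [← sum_image (f := fun S => (FF S) ^ q) (g := fun D : ℕ => D.primeFactors)
    (s := (Icc 1 T).filter (fun D => Squarefree D ∧ gD D ≠ 0 ∧ p (FF D.primeFactors)))]
  · apply sum_le_sum_of_subset_of_nonneg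
    · intro S hS
      rw [mem_image] at hS
      obtain ⟨D, hD, rfl⟩ := hS
      rw [mem_filter, mem_Icc] at hD
      rw [mem_filter, mem_powerset]
      exact ⟨pf_sub hD.1.2 hD.2.2.1, hD.2.2.2⟩
    · intro S _ _
      exact Real.rpow_nonneg (FF_nonneg S) _
  · exact pf_inj _ fun D hD => (mem_filter.mp hD).2.1

/-- coefficients of a square class -/
lemma ag_class {D k : ℕ} (hD : Squarefree D) (hk : 1 ≤ k) :
    ag (D * k ^ 2) ≤ (4 / Real.pi) * wt D * (((k ^ 2).divisors.card : ℝ) * (k:ℝ) ^ (-(3/2):ℝ)) := by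
  have h1 := rA_le_gD hD hk
  have hpi := Real.pi_pos
  have hD0 : (0:ℝ) ≤ D := Nat.cast_nonneg D
  have hk0 : (0:ℝ) < k := by exact_mod_cast hk
  unfold ag wt
  have e1 : (√((D * k ^ 2 : ℕ) : ℝ)) ^ (-(3/2):ℝ) = (D:ℝ) ^ (-(3/4):ℝ) * (k:ℝ) ^ (-(3/2):ℝ) := by
    push_cast
    rw [Real.sqrt_mul hD0, Real.sqrt_sq hk0.le, Real.mul_rpow (Real.sqrt_nonneg _) hk0.le, Real.sqrt_eq_rpow,
      ← Real.rpow_mul hD0]
    norm_num
  rw [e1]
  calc rA (D * k ^ 2) / Real.pi * ((D:ℝ) ^ (-(3/4):ℝ) * (k:ℝ) ^ (-(3/2):ℝ))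
      ≤ (4 * gD D * ((k ^ 2).divisors.card : ℝ)) / Real.pi * ((D:ℝ) ^ (-(3/4):ℝ) * (k:ℝ) ^ (-(3/2):ℝ)) := by
        gcongr
    _ = _ := by ring

lemma dsum : Summable (fun k : ℕ => ((k ^ 2).divisors.card : ℝ) * (k:ℝ) ^ (-(3/2):ℝ)) := by
  obtain ⟨C, hC, hr⟩ := Pool.Agent.Helper112.divisor_bound (1/100) (by norm_num)
  have hsum : Summable (fun k : ℕ => C * (k:ℝ) ^ (-(37/25):ℝ)) := by
    apply Summable.mul_left
    rw [Real.summable_nat_rpow]; norm_num
  apply Summable.of_norm_bounded hsum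
  intro k
  rw [Real.norm_eq_abs, abs_of_nonneg (by positivity)]
  rcases Nat.eq_zero_or_pos k with rfl | hk
  · simp only [Nat.cast_zero]
    rw [Real.zero_rpow (by norm_num), Real.zero_rpow (by norm_num)]
    simp
  · have hk0 : (0:ℝ) < k := by exact_mod_cast hk
    have h1 := hr (k^2) (Nat.one_le_pow _ _ hk)
    have h2 : (((k ^ 2 : ℕ)) : ℝ) ^ (1/100:ℝ) = (k:ℝ) ^ (1/50:ℝ) := by
      push_cast
      rw [← Real.rpow_natCast, ← Real.rpow_mul hk0.le]
      norm_num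
    rw [h2] at h1
    calc ((k ^ 2).divisors.card : ℝ) * (k:ℝ) ^ (-(3/2):ℝ) ≤ (C * (k:ℝ) ^ (1/50:ℝ)) * (k:ℝ) ^ (-(3/2):ℝ) := by gcongr
      _ = C * ((k:ℝ) ^ (1/50:ℝ) * (k:ℝ) ^ (-(3/2):ℝ)) := by ring
      _ = _ := by rw [← Real.rpow_add hk0]; norm_num

/-- the sum over a square class -/
theorem bT_ag : ∃ C : ℝ, 0 < C ∧ ∀ D : ℕ, Squarefree D → ∀ T : Finset ℕ, (∀ m ∈ T, 1 ≤ m ∧ InC D m) →
    bT ag T ≤ C * wt D := by
  classical
  set Z := ∑' k : ℕ, ((k ^ 2).divisors.card : ℝ) * (k:ℝ) ^ (-(3/2):ℝ) with hZ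
  have hZ0 : 0 ≤ Z := tsum_nonneg fun k => by positivity
  have hpi := Real.pi_pos
  refine ⟨(4 / Real.pi) * (Z + 1), by positivity, ?_⟩
  intro D hD T hT
  choose! f hf using fun m (hm : m ∈ T) => (hT m hm).2
  have hinj : Set.InjOn f T := by
    intro m hm m' hm' h
    rw [hf m hm, hf m' hm', h]
  have hf0 : ∀ m ∈ T, 1 ≤ f m := by
    intro m hm
    by_contra h
    have h0 : f m = 0 := by omega
    have h1 := hf m hm
    have h2 := (hT m hm).1
    rw [h0] at h1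
    simp at h1
    omega
  unfold bT
  have h1 : ∀ m ∈ T, |ag m| ≤ (4 / Real.pi) * wt D * (((f m ^ 2).divisors.card : ℝ) * ((f m : ℕ):ℝ) ^ (-(3/2):ℝ)) := by
    intro m hm
    rw [abs_of_nonneg (ag_nonneg m)]
    conv_lhs => rw [hf m hm]
    exact ag_class hD (hf0 m hm)
  have hw := wt_nonneg D
  calc ∑ m ∈ T, |ag m| ≤ ∑ m ∈ T, (4 / Real.pi) * wt D * (((f m ^ 2).divisors.card : ℝ) * ((f m : ℕ):ℝ) ^ (-(3/2):ℝ)) :=
        sum_le_sum h1
    _ = (4 / Real.pi) * wt D * ∑ m ∈ T, (((f m ^ 2).divisors.card : ℝ) * ((f m : ℕ):ℝ) ^ (-(3/2):ℝ)) := by rw [mul_sum]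
    _ = (4 / Real.pi) * wt D * ∑ k ∈ T.image f, (((k ^ 2).divisors.card : ℝ) * (k:ℝ) ^ (-(3/2):ℝ)) := by
        rw [sum_image hinj]
    _ ≤ (4 / Real.pi) * wt D * Z := by
        gcongr
        exact dsum.sum_le_tsum _ fun k _ => by positivity
    _ ≤ _ := by
        have : (4 / Real.pi) * wt D * Z ≤ (4 / Real.pi) * wt D * (Z + 1) := by
          apply mul_le_mul_of_nonneg_left _ (by positivity)
          linarith
        linarith

/-- members of the square classes of small weight -/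
def Lw (Y : ℝ) (m : ℕ) : Prop := ∃ D, Squarefree D ∧ InC D m ∧ FF D.primeFactors ≤ Y

open Classical in
/-- coefficients of the classes of small `FF` -/
noncomputable def alo (Y : ℝ) (m : ℕ) : ℝ := if Lw Y m then ag m else 0

open Classical in
/-- the other coefficients -/
noncomputable def ahi (Y : ℝ) (m : ℕ) : ℝ := if Lw Y m then 0 else ag m

lemma U_split (Y φ R : ℝ) (M : ℕ) : U ag φ R M = U (alo Y) φ R M + U (ahi Y) φ R M := by
  unfold U
  rw [← sum_add_distrib]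
  apply sum_congr rfl
  intro m _
  unfold alo ahi
  split_ifs <;> ring

lemma ahi_abs (Y : ℝ) (m : ℕ) : |ahi Y m| ≤ ag m := by
  unfold ahi
  have := ag_nonneg m
  split_ifs
  · simpa using this
  · rw [abs_of_nonneg this]

lemma sf_exists {m M : ℕ} (hm1 : 1 ≤ m) (hm2 : m ≤ M) : ∃ D ∈ Icc 1 M, Squarefree D ∧ InC D m := by
  obtain ⟨s, t, hst, hsf⟩ := Nat.sq_mul_squarefree m
  have ht : 1 ≤ t := by
    rcases Nat.eq_zero_or_pos t with h | h
    · rw [h] at hst; simp at hst; omega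
    · exact h
  refine ⟨s, ?_, hsf, ⟨t, by rw [← hst]; ring⟩⟩
  rw [mem_Icc]
  refine ⟨Nat.one_le_iff_ne_zero.mpr hsf.ne_zero, ?_⟩
  calc s = 1^2 * s := by ring
    _ ≤ t^2 * s := Nat.mul_le_mul_right _ (Nat.pow_le_pow_left ht 2)
    _ = m := hst
    _ ≤ M := hm2

/-- **the classes of large weight: bound for the supremum** -/
theorem low_sup : ∃ C : ℝ, 0 < C ∧ ∀ Y : ℝ, 2 ≤ Y → ∀ (φ R : ℝ) (M : ℕ),
    |U (alo Y) φ R M| ≤ C * Y ^ (1/4:ℝ) * (Real.log Y) ^ gam := by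
  classical
  obtain ⟨C1, hC1, hb⟩ := bT_ag
  obtain ⟨C2, hC2, hs⟩ := ser_low
  refine ⟨C1 * C2, by positivity, ?_⟩
  intro Y hY φ R M
  set Q := (Icc 1 (M^2)).filter (fun D => Squarefree D ∧ gD D ≠ 0 ∧ FF D.primeFactors ≤ Y) with hQ
  set Q' := (Icc 1 (M^2)).filter (fun D => Squarefree D ∧ FF D.primeFactors ≤ Y) with hQ'
  have h1 : |U (alo Y) φ R M| ≤ ∑ m ∈ Icc 1 (M^2), alo Y m := by
    unfold U
    refine (abs_sum_le_sum_abs _ _).trans (sum_le_sum fun m _ => ?_)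
    have h0 : 0 ≤ alo Y m := by
      unfold alo
      split_ifs
      · exact ag_nonneg m
      · exact le_rfl
    rw [abs_mul, abs_of_nonneg h0]
    exact mul_le_of_le_one_right h0 (Real.abs_cos_le_one _)
  have h2 : ∑ m ∈ Icc 1 (M^2), alo Y m ≤ ∑ D ∈ Q', bT ag ((Icc 1 (M^2)).filter (InC D)) := by
    have h3 : ∀ m ∈ Icc 1 (M^2), alo Y m ≤ ∑ D ∈ Q', (if InC D m then |ag m| else 0) := by
      intro m hm
      unfold alo
      split_ifs with hL
      · obtain ⟨D, hD1, hD2, hD3⟩ := hL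
        rw [mem_Icc] at hm
        obtain ⟨D', hD', g1, g2⟩ := sf_exists hm.1 hm.2
        have hDD : D = D' := inC_unique hD1 g1 hm.1 hD2 g2
        have hmem : D ∈ Q' := by
          rw [hQ', mem_filter]
          exact ⟨hDD ▸ hD', hD1, hD3⟩
        have h4 := single_le_sum (f := fun D => (if InC D m then |ag m| else 0)) (fun i _ => by
          split_ifs
          · exact abs_nonneg _
          · exact le_rfl) hmem
        simp only [if_pos hD2] at h4
        exact (le_abs_self _).trans h4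
      · exact sum_nonneg fun i _ => by
          split_ifs
          · exact abs_nonneg _
          · exact le_rfl
    refine (sum_le_sum h3).trans ?_
    rw [sum_comm]
    apply sum_le_sum
    intro D _
    unfold bT
    rw [← sum_filter]
  have h3 : ∑ D ∈ Q', bT ag ((Icc 1 (M^2)).filter (InC D)) ≤ ∑ D ∈ Q', C1 * wt D := by
    apply sum_le_sum
    intro D hD
    rw [hQ', mem_filter] at hD
    apply hb D hD.2.1
    intro m hm
    rw [mem_filter, mem_Icc] at hm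
    exact ⟨hm.1.1, hm.2⟩
  have h4 : ∑ D ∈ Q', C1 * wt D = C1 * ∑ D ∈ Q, (FF D.primeFactors) ^ (-(3/4):ℝ) := by
    rw [← mul_sum]
    congr 1
    have hsub : Q ⊆ Q' := by
      intro D hD
      rw [hQ, mem_filter] at hD
      rw [hQ', mem_filter]
      exact ⟨hD.1, hD.2.1, hD.2.2.2⟩
    rw [← sum_subset hsub]
    · apply sum_congr rfl
      intro D hD
      rw [hQ, mem_filter] at hD
      exact wt_eq hD.2.1 hD.2.2.1
    · intro D hD hDn
      rw [hQ', mem_filter] at hD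
      have : gD D = 0 := by
        by_contra hne
        apply hDn
        rw [hQ, mem_filter]
        exact ⟨hD.1, hD.2.1, hne, hD.2.2⟩
      unfold wt
      rw [this]; simp
  have h5 := sum_sqf (T := M^2) (p := fun x => x ≤ Y) (q := -(3/4))
  have h6 := hs Y hY (M^2)
  calc |U (alo Y) φ R M| ≤ C1 * ∑ D ∈ Q, (FF D.primeFactors) ^ (-(3/4):ℝ) := by
        rw [← h4]; exact h1.trans (h2.trans h3)
    _ ≤ C1 * (C2 * Y ^ (1/4:ℝ) * (Real.log Y) ^ gam) := mul_le_mul_of_nonneg_left (h5.trans h6) hC1.le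
    _ = _ := by ring

open Classical in
/-- **the classes of small weight: bound for the variance** -/
theorem high_var : ∃ C : ℝ, 0 < C ∧ ∀ Y : ℝ, 2 ≤ Y → ∀ M : ℕ,
    ∑ s ∈ (Icc 1 (M^2)).filter (fun s => Squarefree s), (bT (ahi Y) ((Icc 1 (M^2)).filter (InC s))) ^ 2 ≤
      C * Y ^ (-(1/2):ℝ) * (Real.log Y) ^ gam := by
  obtain ⟨C1, hC1, hb⟩ := bT_ag
  obtain ⟨C2, hC2, hs⟩ := ser_high
  refine ⟨C1 ^ 2 * C2, by positivity, ?_⟩
  intro Y hY M
  set Q := (Icc 1 (M^2)).filter (fun D => Squarefree D ∧ gD D ≠ 0 ∧ Y < FF D.primeFactors) with hQ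
  have hbhi : ∀ T : Finset ℕ, bT (ahi Y) T ≤ bT ag T := by
    intro T
    unfold bT
    apply sum_le_sum
    intro m _
    exact (ahi_abs Y m).trans (le_abs_self _)
  have hb0 : ∀ T : Finset ℕ, 0 ≤ bT (ahi Y) T := fun T => sum_nonneg fun _ _ => abs_nonneg _
  have h1 : ∀ s ∈ (Icc 1 (M^2)).filter (fun s => Squarefree s), s ∉ Q →
      (bT (ahi Y) ((Icc 1 (M^2)).filter (InC s))) ^ 2 = 0 := by
    intro s hs1 hs2
    rw [mem_filter] at hs1
    have h0 : bT (ahi Y) ((Icc 1 (M^2)).filter (InC s)) = 0 := by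
      by_cases hg : gD s = 0
      · apply le_antisymm _ (hb0 _)
        refine (hbhi _).trans ((hb s hs1.2 _ fun m hm => by
          rw [mem_filter, mem_Icc] at hm
          exact ⟨hm.1.1, hm.2⟩).trans (le_of_eq ?_))
        unfold wt
        rw [hg]; simp
      · have hF : FF s.primeFactors ≤ Y := by
          by_contra hne
          apply hs2
          rw [hQ, mem_filter]
          exact ⟨hs1.1, hs1.2, hg, not_le.mp hne⟩
        unfold bT
        apply sum_eq_zero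
        intro m hm
        rw [mem_filter] at hm
        unfold ahi
        rw [if_pos ⟨s, hs1.2, hm.2, hF⟩, abs_zero]
    rw [h0]; simp
  have hsub : Q ⊆ (Icc 1 (M^2)).filter (fun s => Squarefree s) := by
    intro D hD
    rw [hQ, mem_filter] at hD
    rw [mem_filter]
    exact ⟨hD.1, hD.2.1⟩
  rw [← sum_subset hsub h1]
  have h2 : ∀ s ∈ Q, (bT (ahi Y) ((Icc 1 (M^2)).filter (InC s))) ^ 2 ≤ C1 ^ 2 * (FF s.primeFactors) ^ (-(3/2):ℝ) := by
    intro s hs1
    rw [hQ, mem_filter] at hs1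
    have h3 : bT (ahi Y) ((Icc 1 (M^2)).filter (InC s)) ≤ C1 * wt s :=
      (hbhi _).trans (hb s hs1.2.1 _ fun m hm => by
          rw [mem_filter, mem_Icc] at hm
          exact ⟨hm.1.1, hm.2⟩)
    have h4 : (FF s.primeFactors) ^ (-(3/2):ℝ) = (wt s) ^ 2 := by
      rw [wt_eq hs1.2.1 hs1.2.2.1, ← Real.rpow_natCast, ← Real.rpow_mul (FF_nonneg _)]
      norm_num
    rw [h4, ← mul_pow]
    exact pow_le_pow_left₀ (hb0 _) h3 2
  refine (sum_le_sum h2).trans ?_
  rw [← mul_sum]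
  have h5 := sum_sqf (T := M^2) (p := fun x => Y < x) (q := -(3/2))
  have h6 := hs Y hY (M^2)
  calc C1 ^ 2 * ∑ s ∈ Q, (FF s.primeFactors) ^ (-(3/2):ℝ) ≤ C1 ^ 2 * (C2 * Y ^ (-(1/2):ℝ) * (Real.log Y) ^ gam) :=
        mul_le_mul_of_nonneg_left (h5.trans h6) (by positivity)
    _ = _ := by ring

end Run7.h113
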