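import Mathlib
import Pool.Agent.H383.Reg
import Pool.Agent.Y969.TM4

/-!
The zero-frequency part of the even powers: Gaussian bound.
-/

set_option autoImplicit false

open Finset Filter Topology
open Pool.Agent.H383.AP Pool.Agent.H383.Gauss
open Pool.Agent.H383.Gen
open Pool.Agent.Y969.TM

namespace Run7.h113

/-- no exceptional classes for transcendental steps -/
lemma goodS_empty {α : ℝ} (hα : 0 < α) (ht : Transcendental ℤ α) : GoodS α ∅ := by
  have hnot : ∀ (s : ℕ) (hs : Squarefree s) (c : ℤ) (z : ℝ), z ∈ Submodule.span ℚ (bs '' {⟨s, hs⟩}ᶜ) →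
      (c : ℝ) * √(s:ℝ) = z → c = 0 := by
    intro s hs c z hz hcz
    by_contra hne
    have h1 := sf_indep.notMem_span_image (s := {⟨s, hs⟩}ᶜ) (x := ⟨s, hs⟩) (by simp)
    apply h1
    have hc : ((c : ℚ)) ≠ 0 := by exact_mod_cast hne
    have e : √((((⟨s, hs⟩ : {s : ℕ // Squarefree s}) : ℕ)):ℝ) = ((c : ℚ)⁻¹) • z := by
      rw [← hcz, Rat.smul_def]
      have : (c : ℝ) ≠ 0 := by exact_mod_cast hne
      push_cast
      field_simp
    rw [e]
    exact Submodule.smul_mem _ _ hz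
  have hbs : ∀ x ∈ Submodule.span ℚ (Set.range bs), IsAlgebraic ℤ x := by
    intro x hx
    induction hx using Submodule.span_induction with
    | mem x hx =>
      obtain ⟨i, rfl⟩ := hx
      unfold bs
      refine (IsIntegral.of_pow (n := 2) (by norm_num) ?_).isAlgebraic
      rw [Real.sq_sqrt (Nat.cast_nonneg _)]
      exact isIntegral_algebraMap (R := ℤ) (A := ℝ) (x := ((i:ℕ) : ℤ))
    | zero => exact isAlgebraic_zero
    | add x y _ _ hx hy => exact hx.add hy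
    | smul a x _ hx =>
      rw [Rat.smul_def]
      have h1 : IsAlgebraic ℤ ((a : ℚ) : ℝ) := by
        rw [Rat.cast_def]
        have e1 : IsAlgebraic ℤ ((a.num : ℝ)) := isAlgebraic_algebraMap (R := ℤ) (A := ℝ) a.num
        have e2 : IsAlgebraic ℤ ((a.den : ℝ)) := isAlgebraic_algebraMap (R := ℤ) (A := ℝ) (a.den : ℤ)
        rw [div_eq_mul_inv]
        exact e1.mul e2.inv
      exact h1.mul hx
  have h : ¬ (1/α ∈ Submodule.span ℚ (Set.range bs)) := by
    intro hh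
    apply ht
    have := (hbs _ hh).inv
    simpa using this
  intro s hs _ c y hy hk
  obtain ⟨k, hk⟩ := hk
  have hyS := Gr_span hα hs hy
  by_cases hk0 : k = 0
  · apply hnot s hs c (-(y/α))
    · exact Submodule.neg_mem _ hyS
    · rw [hk0] at hk
      field_simp
      push_cast at hk
      linarith
  · exfalso
    apply h
    have hk' : (k:ℝ) ≠ 0 := by exact_mod_cast hk0
    have e : 1/α = ((k:ℚ)⁻¹) • ((c:ℚ) • bs ⟨s, hs⟩ + y/α) := by
      rw [Rat.smul_def, Rat.smul_def]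
      unfold bs
      push_cast
      field_simp
      linarith
    rw [e]
    apply Submodule.smul_mem
    apply Submodule.add_mem
    · apply Submodule.smul_mem
      exact Submodule.subset_span ⟨_, rfl⟩
    · refine Submodule.span_mono ?_ hyS
      rintro _ ⟨i, -, rfl⟩
      exact ⟨i, rfl⟩

open Classical in
/-- moment generating function -/
theorem mgf_sq {α X : ℝ} (hS : GoodS α ∅) (a : ℕ → ℝ) (φ l : ℝ) (M : ℕ) :
    ‖mn (ex a φ α X (l:ℂ) (Icc 1 (M^2)))‖ ≤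
      Real.exp (l ^ 2 * ∑ s ∈ (Icc 1 (M^2)).filter (fun s => Squarefree s), (bT a ((Icc 1 (M^2)).filter (InC s))) ^ 2) := by
  set Q := (Finset.Icc 1 (M^2)).filter (fun s => Squarefree s) with hQ
  have hQ' : ∀ s ∈ Q, Squarefree s ∧ s ∉ (∅ : Finset ℕ) := fun s hs => ⟨(Finset.mem_filter.mp hs).2, by simp⟩
  rw [prod_formula (a := a) (φ := φ) (X := X) hS (l:ℂ) (T := Finset.Icc 1 (M^2))
    (fun m hm => (Finset.mem_Icc.mp hm).1) Q hQ', norm_mul, norm_prod]
  set Tr := (Finset.Icc 1 (M^2)).filter (fun m => ∀ s ∈ Q, ¬ InC s m) with hTr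
  have hTr0 : Tr = ∅ := by
    rw [hTr]
    apply filter_false_of_mem
    intro m hm hall
    rw [mem_Icc] at hm
    obtain ⟨s, t, hst, hsf⟩ := Nat.sq_mul_squarefree m
    have ht : 1 ≤ t := by
      rcases Nat.eq_zero_or_pos t with h | h
      · rw [h] at hst; simp at hst; omega
      · exact h
    refine hall s ?_ ⟨t, by rw [← hst]; ring⟩
    rw [hQ, mem_filter, mem_Icc]
    refine ⟨⟨Nat.one_le_iff_ne_zero.mpr hsf.ne_zero, ?_⟩, hsf⟩
    calc s = 1^2 * s := by ring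
      _ ≤ t^2 * s := Nat.mul_le_mul_right _ (Nat.pow_le_pow_left ht 2)
      _ = m := hst
      _ ≤ M^2 := hm.2
  have h1 : ‖mn (ex a φ α X (l:ℂ) Tr)‖ ≤ 1 := by
    apply mn_norm_le (ex_UC_top _) zero_le_one
    intro n
    unfold ex Pool.Agent.H383.Gen.ST
    rw [hTr0, sum_empty]
    simp
  have h2 : ∀ s ∈ Q, ‖mn (ex a φ α X (l:ℂ) ((Finset.Icc 1 (M^2)).filter (InC s)))‖ ≤
      Real.exp (l ^ 2 * (bT a ((Icc 1 (M^2)).filter (InC s))) ^ 2) := by
    intro s hs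
    obtain ⟨hsf, hs0⟩ := hQ' s hs
    have hT : ∀ m ∈ (Finset.Icc 1 (M^2)).filter (InC s), 1 ≤ m ∧ InC s m := by
      intro m hm
      rw [Finset.mem_filter, Finset.mem_Icc] at hm
      exact ⟨hm.1.1, hm.2⟩
    refine (blk_mgf hS hsf hs0 hT l).trans ?_
    apply Real.exp_le_exp.mpr
    refine (min_le_right _ _).trans (le_of_eq ?_)
    rw [mul_pow, sq_abs]
  calc (∏ s ∈ Q, ‖mn (ex a φ α X (l:ℂ) ((Finset.Icc 1 (M^2)).filter (InC s)))‖) * ‖mn (ex a φ α X (l:ℂ) Tr)‖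
      ≤ (∏ s ∈ Q, Real.exp (l ^ 2 * (bT a ((Icc 1 (M^2)).filter (InC s))) ^ 2)) * 1 := by
        gcongr with s hs
        exact h2 s hs
    _ = _ := by rw [mul_one, ← Real.exp_sum, mul_sum]

open Classical in
/-- **Gaussian bound for the zero-frequency part** -/
theorem ZZ_gauss (a : ℕ → ℝ) (φ : ℝ) (M : ℕ) {σ : ℝ} (hσ0 : 0 < σ)
    (hσ : ∑ s ∈ (Icc 1 (M^2)).filter (fun s => Squarefree s), (bT a ((Icc 1 (M^2)).filter (InC s))) ^ 2 ≤ σ)
    {k : ℕ} (hk : 1 ≤ k) : ‖ZZ a φ (2 * k) M‖ ≤ 2 * (12 * k * σ) ^ k := by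
  obtain ⟨t, ht0, ht⟩ := exists_tr
  have hS := goodS_empty ht0 ht
  have hm := fun l : ℝ => (mgf_sq (X := 0) hS a φ l M).trans
    (Real.exp_le_exp.mpr (mul_le_mul_of_nonneg_left hσ (sq_nonneg l)))
  have hk0 : (0:ℝ) < k := by exact_mod_cast hk
  set l : ℝ := √(k / σ) with hl
  have hl0 : 0 < l := Real.sqrt_pos.mpr (by positivity)
  have hl2 : l ^ 2 = k / σ := Real.sq_sqrt (by positivity)
  have h1 := pow_mean ht a φ (2 * k) M
  have e0 : ∀ l : ℝ, ex a φ t 0 (l:ℂ) (Icc 1 (M^2)) = fun n : ℕ => ((Real.exp (l * U a φ (n * t) M) : ℝ) : ℂ) := by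
    intro l
    funext n
    unfold ex
    rw [ST_U, zero_add]
    push_cast
    rfl
  have h2 := fun l : ℝ => UC_hasMean (ex_UC_top (a := a) (φ := φ) (α := t) (X := 0) (T := Icc 1 (M^2)) (l:ℂ))
  have h3 := (h2 l).add (h2 (-l))
  have hfac : (0:ℝ) < ((2 * k).factorial : ℝ) := by positivity
  -- real versions
  have hcm : cm (fun n : ℕ => ((U a φ (n * t) M : ℝ) : ℂ) ^ (2 * k)) =
        fun N => ((rm (fun n : ℕ => (U a φ (n * t) M) ^ (2 * k)) N : ℝ) : ℂ) := by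
    funext N
    rw [← cm_ofReal]
    push_cast
    rfl
  have hA : Tendsto (rm (fun n : ℕ => (U a φ (n * t) M) ^ (2 * k))) atTop (𝓝 (ZZ a φ (2 * k) M).re) := by
    unfold HasMean at h1
    rw [hcm] at h1
    exact (Complex.continuous_re.tendsto _).comp h1
  have hIm : (ZZ a φ (2 * k) M).im = 0 := by
    unfold HasMean at h1
    rw [hcm] at h1
    have h4 := (Complex.continuous_im.tendsto _).comp h1
    have h5 : Tendsto (fun _ : ℕ => (0:ℝ)) atTop (𝓝 (ZZ a φ (2 * k) M).im) := h4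
    exact tendsto_nhds_unique h5 tendsto_const_nhds |>.symm ▸ rfl
  have hB : Tendsto (rm (fun n : ℕ => Real.exp (l * U a φ (n * t) M) + Real.exp (-(l * U a φ (n * t) M)))) atTop
      (𝓝 (mn (ex a φ t 0 ((l:ℝ):ℂ) (Icc 1 (M^2))) + mn (ex a φ t 0 ((-l:ℝ):ℂ) (Icc 1 (M^2)))).re) := by
    unfold HasMean at h3
    have : cm (ex a φ t 0 ((l:ℝ):ℂ) (Icc 1 (M^2)) + ex a φ t 0 ((-l:ℝ):ℂ) (Icc 1 (M^2))) =
        fun N => ((rm (fun n : ℕ => Real.exp (l * U a φ (n * t) M) + Real.exp (-(l * U a φ (n * t) M))) N : ℝ) : ℂ) := by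
      funext N
      rw [← cm_ofReal, e0, e0]
      simp only [neg_mul]
      push_cast
      rfl
    rw [this] at h3
    exact (Complex.continuous_re.tendsto _).comp h3
  have hle : l ^ (2 * k) * (ZZ a φ (2 * k) M).re ≤ ((2 * k).factorial : ℝ) *
      (mn (ex a φ t 0 ((l:ℝ):ℂ) (Icc 1 (M^2))) + mn (ex a φ t 0 ((-l:ℝ):ℂ) (Icc 1 (M^2)))).re := by
    refine le_of_tendsto_of_tendsto (hA.const_mul _) (hB.const_mul _) (Eventually.of_forall fun N => ?_)
    beta_reduce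
    rw [← rm_mul, ← rm_mul]
    apply rm_mono (fun n => ?_) N
    rw [← mul_pow]
    exact pow_le_exp _ k
  have h0 : 0 ≤ (ZZ a φ (2 * k) M).re := by
    refine ge_of_tendsto hA (Eventually.of_forall fun N => rm_nonneg (fun n => ?_) N)
    exact Even.pow_nonneg (even_two_mul k) _
  have hnorm : ‖ZZ a φ (2 * k) M‖ = (ZZ a φ (2 * k) M).re := by
    have : ZZ a φ (2 * k) M = (((ZZ a φ (2 * k) M).re : ℝ) : ℂ) := by
      apply Complex.ext
      · simp
      · simp [hIm]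
    rw [this, Complex.norm_real, Real.norm_eq_abs, abs_of_nonneg h0, Complex.ofReal_re]
  rw [hnorm]
  have hm1 := hm l
  have hm2 := hm (-l)
  rw [neg_sq] at hm2
  have ek : l ^ 2 * σ = k := by rw [hl2]; field_simp
  rw [ek] at hm1 hm2
  have h6 : (mn (ex a φ t 0 ((l:ℝ):ℂ) (Icc 1 (M^2))) + mn (ex a φ t 0 ((-l:ℝ):ℂ) (Icc 1 (M^2)))).re ≤ 2 * Real.exp k := by
    refine (Complex.re_le_norm _).trans ((norm_add_le _ _).trans ?_)
    linarith
  have h7 : l ^ (2 * k) = (k / σ) ^ k := by rw [pow_mul, hl2]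
  rw [h7] at hle
  have h8 : (k / σ) ^ k * (ZZ a φ (2 * k) M).re ≤ ((2 * k).factorial : ℝ) * (2 * Real.exp k) :=
    hle.trans (mul_le_mul_of_nonneg_left h6 hfac.le)
  have h9 : ((2 * k).factorial : ℝ) ≤ (2 * (k:ℝ)) ^ (2 * k) := by
    have := Nat.factorial_le_pow (2 * k)
    have h10 : ((2 * k).factorial : ℝ) ≤ (((2 * k) ^ (2 * k) : ℕ) : ℝ) := by exact_mod_cast this
    refine h10.trans (le_of_eq ?_)
    push_cast
    ring
  have h10 : Real.exp k ≤ 3 ^ k := by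
    have : Real.exp (k:ℝ) = (Real.exp 1) ^ k := by rw [← Real.exp_nat_mul, mul_one]
    rw [this]
    exact pow_le_pow_left₀ (Real.exp_pos _).le (by linarith [Real.exp_one_lt_d9]) k
  have h11 : 0 < (k / σ) ^ k := by positivity
  rw [← le_div_iff₀' h11] at h8
  refine h8.trans ?_
  rw [div_le_iff₀ h11]
  calc ((2 * k).factorial : ℝ) * (2 * Real.exp k) ≤ (2 * (k:ℝ)) ^ (2 * k) * (2 * 3 ^ k) := by gcongr
    _ = 2 * (12 * k * σ) ^ k * (k / σ) ^ k := by
        rw [mul_assoc 2 ((12 * k * σ) ^ k), ← mul_pow, pow_mul, mul_left_comm, ← mul_pow]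
        congr 2
        field_simp
        ring

end Run7.h113
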