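import Mathlib
import Pool.Agent.Run7.h113.Coef
import Pool.Agent.Run7.h113.ZG
import Pool.Agent.R306.GP.AEc

/-!
Upper bound for the error term along almost every progression.
-/

set_option autoImplicit false

open MeasureTheory Filter Topology Set Real
open scoped ENNReal
open Pool.Agent.H383.Gen (U Bd)
open Pool.Agent.H383.Circ (ag ag_nonneg ag_Bd)
open Pool.Agent.Y969.TM (ZZ)
open Pool.Agent.R306.GP (Ctx Sq pt pt_pos pt_low AA AA_le AA_nonneg Cp Cp_pos pow_mean_int Upt_cont ae_zero' ae_err)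

namespace Run7.h113

/-- half the number of factors -/
noncomputable def pp (n : ℕ) : ℕ := ⌊(1/2) * Real.log n⌋₊

lemma log_nat_nonneg (n : ℕ) : 0 ≤ Real.log (n:ℝ) := Real.log_natCast_nonneg n

lemma pp_le (n : ℕ) : (pp n : ℝ) ≤ (1/2) * Real.log n :=
  Nat.floor_le (by have := log_nat_nonneg n; positivity)

lemma lt_pp (n : ℕ) : (1/2) * Real.log n < pp n + 1 := Nat.lt_floor_add_one _

lemma log_nat_tendsto : Tendsto (fun n : ℕ => Real.log (n:ℝ)) atTop atTop :=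
  Real.tendsto_log_atTop.comp tendsto_natCast_atTop_atTop

lemma pp_tendsto : Tendsto (fun n : ℕ => (pp n : ℝ)) atTop atTop := by
  refine tendsto_atTop_mono (f := fun n : ℕ => (1/2) * Real.log n - 1) (fun n => ?_) ?_
  · have := lt_pp n
    linarith
  · exact tendsto_atTop_add_const_right _ _ (log_nat_tendsto.const_mul_atTop (by norm_num))

lemma sub_lin {A B s θ : ℝ} (hs : 0 < s) (hθ : θ < 1) :
    ∀ᶠ n : ℕ in atTop, A * ((n:ℝ) + 1) ^ θ + B ≤ s * n := by
  have h1 : Tendsto (fun n : ℕ => A * ((n:ℝ) + 1) ^ (-(1 - θ))) atTop (𝓝 (A * 0)) :=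
    ((tendsto_rpow_neg_atTop (by linarith : 0 < 1 - θ)).comp
      (tendsto_atTop_add_const_right _ _ tendsto_natCast_atTop_atTop)).const_mul A
  rw [mul_zero] at h1
  have h2 : ∀ᶠ n : ℕ in atTop, B ≤ (s/2) * n :=
    ((tendsto_natCast_atTop_atTop (R := ℝ)).const_mul_atTop (by positivity : 0 < s/2)).eventually_ge_atTop B
  filter_upwards [h1.eventually (gt_mem_nhds (show 0 < s/4 by positivity)), h2, eventually_ge_atTop 1] with n hn hB hn1
  have hn1' : (1:ℝ) ≤ n := by exact_mod_cast hn1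
  have e1 : A * ((n:ℝ) + 1) ^ θ = (A * ((n:ℝ) + 1) ^ (-(1 - θ))) * ((n:ℝ) + 1) := by
    rw [mul_assoc]
    congr 1
    nth_rewrite 3 [← Real.rpow_one ((n:ℝ) + 1)]
    rw [← Real.rpow_add (by linarith)]
    congr 1; ring
  rw [e1]
  have h3 : (A * ((n:ℝ) + 1) ^ (-(1 - θ))) * ((n:ℝ) + 1) ≤ s/4 * ((n:ℝ) + 1) :=
    mul_le_mul_of_nonneg_right hn.le (by linarith)
  nlinarith

lemma four_pow (n : ℕ) (hn : 1 ≤ n) : (((2 ^ (2 * pp n) : ℕ)) : ℝ) ≤ ((n:ℝ) + 1) ^ (7/10:ℝ) := by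
  have hn1 : (1:ℝ) ≤ n := by exact_mod_cast hn
  push_cast
  have e1 : (2:ℝ) ^ (2 * pp n) = Real.exp (2 * pp n * Real.log 2) := by
    rw [show 2 * (pp n : ℝ) * Real.log 2 = ((2 * pp n : ℕ) : ℝ) * Real.log 2 by push_cast; ring, Real.exp_nat_mul,
      Real.exp_log (by norm_num)]
  rw [e1, Real.rpow_def_of_pos (by linarith)]
  apply Real.exp_le_exp.mpr
  have h1 := pp_le n
  have h2 := Real.log_two_lt_d9
  have h3 : 0 < Real.log 2 := Real.log_pos (by norm_num)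
  have h4 : Real.log n ≤ Real.log ((n:ℝ) + 1) := Real.log_le_log (by linarith) (by linarith)
  have h5 := log_nat_nonneg n
  have h6 : 2 * (pp n : ℝ) * Real.log 2 ≤ Real.log n * Real.log 2 := by nlinarith
  nlinarith

lemma pow_eq_exp {N : ℝ} (hN : 0 < N) (k : ℕ) : N ^ k = Real.exp (k * Real.log N) := by
  rw [Real.exp_nat_mul, Real.exp_log hN]

variable {a b : ℕ → ℝ} {δ c d : ℝ}

/-- bookkeeping of powers -/
lemma err_abs {N x C B P : ℝ} {r e k1 k3 : ℕ} (hN : 1 ≤ N) (hx0 : 0 ≤ x) (hx : x ≤ N ^ k1) (hre : r ≤ e) (he : 1 ≤ e)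
    (hC0 : 0 ≤ C) (hC : C ≤ N) (hB0 : 0 ≤ B) (hB : B ≤ N ^ k3) (hP : 0 < P) (hm : N ^ ((k1 + 1 + k3) * e) ≤ P) :
    x ^ r * (C * (B ^ e / P)) ≤ 1 := by
  have hxx : x ^ r ≤ N ^ (k1 * e) := by
    calc x ^ r ≤ (N ^ k1) ^ r := pow_le_pow_left₀ hx0 hx _
      _ ≤ (N ^ k1) ^ e := pow_le_pow_right₀ (one_le_pow₀ hN) hre
      _ = _ := by rw [← pow_mul]
  have hCC : C ≤ N ^ e := by
    calc C ≤ N := hC
      _ = N ^ 1 := (pow_one N).symm
      _ ≤ N ^ e := pow_le_pow_right₀ hN he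
  have hBB : B ^ e ≤ N ^ (k3 * e) := by
    calc B ^ e ≤ (N ^ k3) ^ e := pow_le_pow_left₀ hB0 hB e
      _ = _ := by rw [← pow_mul]
  have hN0 : 0 ≤ N := by linarith
  calc x ^ r * (C * (B ^ e / P)) ≤ N ^ (k1 * e) * (N ^ e * (N ^ (k3 * e) / P)) := by
        gcongr
    _ = N ^ ((k1 + 1 + k3) * e) / P := by
        rw [← mul_div_assoc, ← mul_div_assoc, ← pow_add, ← pow_add]
        congr 2
        ring
    _ ≤ 1 := by rw [div_le_one hP]; exact hm

lemma pow_small {N P L : ℝ} {e K : ℕ} (hN : 1 ≤ N) (he : (e:ℝ) ≤ N ^ (7/10:ℝ)) (hL : 10 * K * N ^ (8/10:ℝ) ≤ L)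
    (hP : Real.exp L ≤ P) : N ^ (K * e) ≤ P := by
  rw [pow_eq_exp (by linarith) (K * e)]
  refine le_trans (Real.exp_le_exp.mpr (le_trans ?_ hL)) hP
  have h7 : Real.log N ≤ N ^ (1/10:ℝ) / (1/10) := Real.log_le_rpow_div (by linarith) (by norm_num)
  have h8 : 0 ≤ Real.log N := Real.log_nonneg hN
  rw [Nat.cast_mul]
  calc (K:ℝ) * (e:ℝ) * Real.log N ≤ K * N ^ (7/10:ℝ) * (N ^ (1/10:ℝ) / (1/10)) := by gcongr
    _ = 10 * K * (N ^ (7/10:ℝ) * N ^ (1/10:ℝ)) := by ring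
    _ = _ := by rw [← Real.rpow_add (by linarith)]; norm_num

/-- the exponent of the degree -/
def dg : ℕ := 400

/-- the degree -/
def MM (n : ℕ) : ℕ := (n + 1) ^ dg

lemma MM_cast (n : ℕ) : ((MM n : ℕ) : ℝ) = ((n:ℝ) + 1) ^ dg := by unfold MM; push_cast; rfl

lemma MM_sq_le {n : ℕ} {Cs x : ℝ} (hCs : Cs ≤ (n:ℝ) + 1) (hx : x ≤ Cs * ((MM n : ℕ) : ℝ) ^ 2) :
    x ≤ ((n:ℝ) + 1) ^ (dg * 2 + 1) := by
  refine hx.trans ?_
  rw [MM_cast, ← pow_mul, pow_succ' ((n:ℝ) + 1) (dg * 2)]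
  exact mul_le_mul_of_nonneg_right hCs (by positivity)

lemma MM_lin_le {n r : ℕ} (hr : (r:ℝ) + 1 ≤ (n:ℝ) + 1) :
    ((r * MM n + 1 : ℕ) : ℝ) ≤ ((n:ℝ) + 1) ^ (dg + 1) := by
  have hN1 : 1 ≤ (n:ℝ) + 1 := by
    have := Nat.cast_nonneg (α := ℝ) n
    linarith
  have h8 : (1:ℝ) ≤ ((n:ℝ) + 1) ^ dg := one_le_pow₀ hN1
  rw [pow_succ' ((n:ℝ) + 1) dg, Nat.cast_add, Nat.cast_mul, MM_cast, Nat.cast_one]
  calc (r:ℝ) * ((n:ℝ) + 1) ^ dg + 1 ≤ ((r:ℝ) + 1) * ((n:ℝ) + 1) ^ dg := by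
        rw [add_mul, one_mul]
        exact add_le_add le_rfl h8
    _ ≤ _ := mul_le_mul_of_nonneg_right hr (by positivity)

/-- the off-diagonal error is negligible -/
lemma err_small (h : Sq a b δ) (hc : 0 < c) (hcd : c ≤ d) (Cs : ℝ) :
    ∀ᶠ n : ℕ in atTop, ∀ x : ℝ, 0 ≤ x → x ≤ Cs * ((MM n : ℕ) : ℝ) ^ 2 →
      x ^ (2 * pp n) * (2 * Cp c d δ * (((2 * pp n * MM n + 1 : ℕ) : ℝ) ^ (2 ^ (2 * pp n)) / pt a b n c)) ≤ 1 := by
  have hCp := Cp_pos hc hcd h.dpos
  have hsc : 0 < δ * c := mul_pos h.dpos hc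
  have hb0 := h.pos 0
  have h1 : ∀ᶠ n : ℕ in atTop, Cs ≤ (n:ℝ) := tendsto_natCast_atTop_atTop.eventually_ge_atTop _
  have h2 : ∀ᶠ n : ℕ in atTop, 2 * Cp c d δ ≤ (n:ℝ) := tendsto_natCast_atTop_atTop.eventually_ge_atTop _
  filter_upwards [h1, h2, sub_lin (A := 10 * ((dg * 2 + 1 + 1 + (dg + 1) : ℕ) : ℝ)) (B := -Real.log (b 0)) (θ := 8/10) hsc
    (by norm_num), eventually_ge_atTop 2] with n hn1 hn2 hn3 hn4 x hx0 hx
  have hn4' : (2:ℝ) ≤ n := by exact_mod_cast hn4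
  have hN1 : 1 ≤ (n:ℝ) + 1 := by linarith
  have hpt := pt_pos h n c
  have h5 := pp_le n
  have h6 : Real.log n ≤ n - 1 := Real.log_le_sub_one_of_pos (by linarith)
  have h7 : 10 * ((dg * 2 + 1 + 1 + (dg + 1) : ℕ) : ℝ) * ((n:ℝ) + 1) ^ (8/10:ℝ) ≤ Real.log (b 0) + δ * c * n := by
    linarith
  refine err_abs (N := (n:ℝ) + 1) (k1 := dg * 2 + 1) (k3 := dg + 1) hN1 hx0 (MM_sq_le (by linarith) hx)
    (Nat.lt_two_pow_self).le Nat.one_le_two_pow
    (by positivity) (by linarith) (Nat.cast_nonneg _) (MM_lin_le (by push_cast; linarith)) hpt ?_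
  refine pow_small hN1 (four_pow n (by omega)) (L := Real.log (b 0) + δ * c * n) h7 ?_
  rw [Real.exp_add, Real.exp_log hb0]
  exact pt_low h hc.le n

/-- moments of the polynomials -/
lemma mom_int (h : Sq a b δ) (hc : 0 < c) (hcd : c ≤ d) (φ : ℝ) : ∀ᶠ n : ℕ in atTop, ∀ af : ℕ → ℝ,
    (∀ m, |af m| ≤ ag m) →
    ∫ y in c..d, (U af φ (pt a b n y) (MM n)) ^ (2 * pp n) ≤
      (d - c) * ‖ZZ af φ (2 * pp n) (MM n)‖ + 1 := by
  obtain ⟨Cs, hCs, hAA⟩ := AA_le ag_Bd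
  filter_upwards [err_small h hc hcd Cs] with n hn af haf
  set M := MM n with hM
  set r := 2 * pp n with hr
  have hA : AA af M ≤ Cs * (M:ℝ) ^ 2 := by
    refine le_trans ?_ (hAA M)
    unfold AA
    exact Finset.sum_le_sum fun m _ => (haf m).trans (le_abs_self _)
  have h1 := pow_mean_int h hc hcd af φ r M n
  have h2 := h1.trans (hn (AA af M) (AA_nonneg _ _) hA)
  have hc1 : Continuous fun y => ((U af φ (pt a b n y) M : ℝ) : ℂ) ^ r :=
    (Complex.continuous_ofReal.comp (Upt_cont af φ a b n M)).pow _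
  have h4 : ((∫ y in c..d, (U af φ (pt a b n y) M) ^ r : ℝ) : ℂ) =
      (∫ y in c..d, (((U af φ (pt a b n y) M : ℝ) : ℂ) ^ r - ZZ af φ r M)) + (d - c) * ZZ af φ r M := by
    rw [intervalIntegral.integral_sub (hc1.intervalIntegrable _ _) intervalIntegrable_const,
      intervalIntegral.integral_const, ← intervalIntegral.integral_ofReal]
    simp only [Complex.ofReal_pow, Complex.real_smul, Complex.ofReal_sub]
    ring
  have h5 : ∫ y in c..d, (U af φ (pt a b n y) M) ^ r ≤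
      ‖((∫ y in c..d, (U af φ (pt a b n y) M) ^ r : ℝ) : ℂ)‖ := by
    rw [Complex.norm_real]; exact Real.le_norm_self _
  refine h5.trans ?_
  rw [h4]
  refine (norm_add_le _ _).trans ?_
  rw [norm_mul]
  have h6 : ‖((d:ℂ) - c)‖ = d - c := by
    rw [← Complex.ofReal_sub, Complex.norm_real, Real.norm_eq_abs, abs_of_nonneg (by linarith)]
  rw [h6]
  linarith

/-- the extremal order -/
noncomputable def VV (x : ℝ) : ℝ := (Real.log x) ^ (1/4:ℝ) * (Real.log (Real.log x)) ^ ((3/4) * gam)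

/-- the same in terms of the logarithm -/
noncomputable def WW (x : ℝ) : ℝ := x ^ (1/4:ℝ) * (Real.log x) ^ ((3/4) * gam)

lemma VV_eq (x : ℝ) : VV x = WW (Real.log x) := rfl

lemma WW_mono {x y : ℝ} (hx : 1 ≤ x) (hxy : x ≤ y) : WW x ≤ WW y := by
  unfold WW
  have := gam_pos
  have h1 := Real.log_nonneg hx
  have h2 := Real.log_nonneg (hx.trans hxy)
  have h3 : (0:ℝ) ≤ y ^ (1/4:ℝ) := Real.rpow_nonneg (by linarith) _
  gcongr

lemma WW_nonneg {x : ℝ} (hx : 1 ≤ x) : 0 ≤ WW x := by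
  unfold WW
  have h1 := Real.log_nonneg hx
  positivity

/-- the parameter -/
noncomputable def YY (p : ℕ) : ℝ := p / (Real.log p) ^ gam

lemma YY_props {p : ℕ} (hp : 3 ≤ p) : 2 ≤ YY p ∧ YY p ≤ p := by
  have hp3 : (3:ℝ) ≤ p := by exact_mod_cast hp
  have hl1 : 1 ≤ Real.log p := by
    rw [Real.le_log_iff_exp_le (by linarith)]
    have := Real.exp_one_lt_d9
    linarith
  have hg := gam_pos
  have hg2 := gam_lt
  have h1 : 1 ≤ (Real.log p) ^ gam := Real.one_le_rpow hl1 hg.le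
  have h2 : (Real.log p) ^ gam ≤ Real.log p := by
    calc (Real.log p) ^ gam ≤ (Real.log p) ^ (1:ℝ) := Real.rpow_le_rpow_of_exponent_le hl1 (by linarith)
      _ = _ := Real.rpow_one _
  have h3 : 2 * Real.log p ≤ p := by
    have h4 := Real.log_le_sub_one_of_pos (show (0:ℝ) < p / 2 by linarith)
    rw [Real.log_div (by linarith) (by norm_num)] at h4
    have := Real.log_two_lt_d9
    linarith
  unfold YY
  constructor
  · rw [le_div_iff₀ (by linarith)]; linarith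
  · exact div_le_self (by linarith) h1

/-- comparison of the two bounds -/
lemma YY_low {p : ℕ} (hp : 3 ≤ p) : (YY p) ^ (1/4:ℝ) * (Real.log (YY p)) ^ gam ≤ WW p := by
  obtain ⟨h1, h2⟩ := YY_props hp
  have hp3 : (3:ℝ) ≤ p := by exact_mod_cast hp
  have hl1 : 1 ≤ Real.log p := by
    rw [Real.le_log_iff_exp_le (by linarith)]
    have := Real.exp_one_lt_d9
    linarith
  have hg := gam_pos
  have h3 : Real.log (YY p) ≤ Real.log p := Real.log_le_log (by linarith) h2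
  have h4 : 0 ≤ Real.log (YY p) := Real.log_nonneg (by linarith)
  calc (YY p) ^ (1/4:ℝ) * (Real.log (YY p)) ^ gam ≤ (YY p) ^ (1/4:ℝ) * (Real.log p) ^ gam := by gcongr
    _ = WW p := by
        unfold YY WW
        rw [Real.div_rpow (by linarith) (by positivity), ← Real.rpow_mul (by linarith), div_mul_eq_mul_div, mul_div_assoc,
          ← Real.rpow_sub (by linarith)]
        congr 2
        ring

lemma YY_high {p : ℕ} (hp : 3 ≤ p) : p * ((YY p) ^ (-(1/2):ℝ) * (Real.log (YY p)) ^ gam) ≤ (WW p) ^ 2 := by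
  obtain ⟨h1, h2⟩ := YY_props hp
  have hp3 : (3:ℝ) ≤ p := by exact_mod_cast hp
  have hl1 : 1 ≤ Real.log p := by
    rw [Real.le_log_iff_exp_le (by linarith)]
    have := Real.exp_one_lt_d9
    linarith
  have hg := gam_pos
  have h3 : Real.log (YY p) ≤ Real.log p := Real.log_le_log (by linarith) h2
  have h4 : 0 ≤ Real.log (YY p) := Real.log_nonneg (by linarith)
  have hp0 : (0:ℝ) < p := by linarith
  have hlp : 0 < Real.log p := by linarith
  calc (p:ℝ) * ((YY p) ^ (-(1/2):ℝ) * (Real.log (YY p)) ^ gam) ≤ p * ((YY p) ^ (-(1/2):ℝ) * (Real.log p) ^ gam) := by gcongr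
    _ = (WW p) ^ 2 := by
        unfold YY WW
        rw [Real.div_rpow (by linarith) (by positivity), ← Real.rpow_mul (by linarith), mul_pow, ← Real.rpow_natCast,
          ← Real.rpow_natCast, ← Real.rpow_mul hp0.le, ← Real.rpow_mul hlp.le]
        have e1 : (p:ℝ) * ((p:ℝ) ^ (-(1/2):ℝ) / (Real.log p) ^ (gam * -(1/2)) * (Real.log p) ^ gam) =
            ((p:ℝ) ^ (1:ℝ) * (p:ℝ) ^ (-(1/2):ℝ)) * ((Real.log p) ^ gam / (Real.log p) ^ (gam * -(1/2))) := by
          rw [Real.rpow_one]; ring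
        rw [e1, ← Real.rpow_add hp0, ← Real.rpow_sub hlp]
        congr 2
        · norm_num
        · push_cast; ring

/-- **upper bound along almost every progression** -/
theorem up_ae {E : ℝ → ℝ} {φ : ℝ} (hX : Ctx E ag φ) : ∃ C : ℝ, 0 < C ∧ ∀ (a b : ℕ → ℝ) (δ c d : ℝ), Sq a b δ → 0 < c → c ≤ d →
    ∀ᵐ y ∂(volume.restrict (Icc c d)), ∀ᶠ n : ℕ in atTop, |E (pt a b n y)| ≤ C * VV n := by
  classical
  obtain ⟨C1, hC1, hlow⟩ := low_sup
  obtain ⟨C2, hC2, hhigh⟩ := high_var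
  set K : ℝ := Real.exp 4 with hK
  have hK0 : 0 < K := Real.exp_pos _
  refine ⟨1 + C1 + √(K * 12 * C2), by positivity, ?_⟩
  intro a b δ c d h hc hcd
  set σ : ℕ → ℝ := fun n => C2 * (YY (pp n)) ^ (-(1/2):ℝ) * (Real.log (YY (pp n))) ^ gam with hσ
  set lam : ℕ → ℝ := fun n => √(K * 12 * pp n * σ n) with hlam
  set M : ℕ → ℕ := MM with hM
  set g : ℕ → ℝ → ℝ := fun n y => (U (ahi (YY (pp n))) φ (pt a b n y) (M n) / lam n) ^ (2 * pp n) with hg
  have hgc : ∀ n, Continuous (g n) := fun n => ((Upt_cont _ φ a b n (M n)).div_const _).pow _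
  -- largeness of p
  have hpe : ∀ P : ℝ, ∀ᶠ n : ℕ in atTop, P ≤ (pp n : ℝ) := fun P => pp_tendsto.eventually_ge_atTop P
  have hp3 : ∀ᶠ n : ℕ in atTop, 3 ≤ pp n := by
    filter_upwards [hpe 3] with n hn
    exact_mod_cast hn
  have hσpos : ∀ n, 3 ≤ pp n → 0 < σ n := by
    intro n hn
    obtain ⟨g1, g2⟩ := YY_props hn
    have : 0 < Real.log (YY (pp n)) := Real.log_pos (by linarith)
    simp only [hσ]
    positivity
  have hbig : ∀ᶠ n : ℕ in atTop, 1 ≤ 12 * pp n * σ n := by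
    filter_upwards [hp3, hpe (1 / (6 * C2) ^ 2)] with n hn hn2
    obtain ⟨g1, g2⟩ := YY_props hn
    have hpr : (3:ℝ) ≤ pp n := by exact_mod_cast hn
    have hp0 : (0:ℝ) < pp n := by linarith
    have k1 : (pp n : ℝ) ^ (-(1/2):ℝ) ≤ (YY (pp n)) ^ (-(1/2):ℝ) :=
      Real.rpow_le_rpow_of_nonpos (by linarith) g2 (by norm_num)
    have k2 : 1/2 ≤ (Real.log (YY (pp n))) ^ gam := by
      have l1 : Real.log 2 ≤ Real.log (YY (pp n)) := Real.log_le_log (by norm_num) g1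
      have l2 : (1/2:ℝ) ≤ Real.log 2 := by linarith [Real.log_two_gt_d9]
      calc (1/2:ℝ) = (1/2:ℝ) ^ (1:ℝ) := (Real.rpow_one _).symm
        _ ≤ (1/2:ℝ) ^ gam := Real.rpow_le_rpow_of_exponent_ge (by norm_num) (by norm_num) (by linarith [gam_lt])
        _ ≤ _ := Real.rpow_le_rpow (by norm_num) (by linarith) gam_pos.le
    have k3 : (pp n : ℝ) * (pp n : ℝ) ^ (-(1/2):ℝ) = √(pp n) := by
      nth_rewrite 1 [← Real.rpow_one (pp n : ℝ)]
      rw [← Real.rpow_add hp0, Real.sqrt_eq_rpow]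
      norm_num
    have k4 : 1 / (6 * C2) ≤ √(pp n) := by
      apply Real.le_sqrt_of_sq_le
      rw [div_pow, one_pow]
      exact hn2
    simp only [hσ]
    calc (1:ℝ) = 6 * C2 * (1 / (6 * C2)) := by field_simp
      _ ≤ 6 * C2 * √(pp n) := by gcongr
      _ = 12 * (pp n : ℝ) * (C2 * (pp n : ℝ) ^ (-(1/2):ℝ) * (1/2)) := by rw [← k3]; ring
      _ ≤ _ := by gcongr
  -- the moment bound
  obtain ⟨n1, hn1⟩ := eventually_atTop.mp (hp3.and (hbig.and (mom_int h hc hcd φ)))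
  have hsum : Summable fun n : ℕ => ((2 * (d - c) + 1) * K) * (1 / ((n:ℝ)) ^ 2) :=
    (Real.summable_one_div_nat_pow.mpr (by norm_num)).mul_left _
  have hae := ae_zero' hcd hgc hsum (j0 := max n1 1) (fun n hn => by
    obtain ⟨q1, q2, q3⟩ := hn1 n ((le_max_left _ _).trans hn)
    have hn1' : 1 ≤ n := (le_max_right _ _).trans hn
    have hn0 : (0:ℝ) < n := by exact_mod_cast hn1'
    have hs := hσpos n q1
    have hpr : (3:ℝ) ≤ pp n := by exact_mod_cast q1
    have hp0 : (0:ℝ) < pp n := by linarith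
    have hX0 : 0 < K * 12 * pp n * σ n := by positivity
    have hl2 : (lam n) ^ (2 * pp n) = (K * 12 * pp n * σ n) ^ (pp n) := by
      simp only [hlam]
      rw [pow_mul, Real.sq_sqrt hX0.le]
    have e1 : ∫ y in c..d, g n y = (∫ y in c..d, (U (ahi (YY (pp n))) φ (pt a b n y) (M n)) ^ (2 * pp n)) /
        (K * 12 * pp n * σ n) ^ (pp n) := by
      rw [← hl2, ← intervalIntegral.integral_div]
      apply intervalIntegral.integral_congr
      intro y _
      simp only [hg]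
      rw [div_pow]
    rw [e1, div_le_iff₀ (by positivity)]
    have h2 := q3 (ahi (YY (pp n))) (ahi_abs _)
    obtain ⟨g1, g2⟩ := YY_props q1
    have h3 := ZZ_gauss (ahi (YY (pp n))) φ (M n) hs (by
      have := hhigh (YY (pp n)) g1 (M n)
      simp only [hσ]
      exact this) (k := pp n) (by omega)
    have hdc : 0 ≤ d - c := by linarith
    have hpow1 : 1 ≤ (12 * (pp n : ℝ) * σ n) ^ (pp n) := one_le_pow₀ q2
    have h4 : ∫ y in c..d, (U (ahi (YY (pp n))) φ (pt a b n y) (M n)) ^ (2 * pp n) ≤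
        (2 * (d - c) + 1) * (12 * (pp n : ℝ) * σ n) ^ (pp n) := by
      refine h2.trans ?_
      have := mul_le_mul_of_nonneg_left h3 hdc
      nlinarith
    refine h4.trans ?_
    have e2 : (K * 12 * pp n * σ n) ^ (pp n) = K ^ (pp n) * (12 * (pp n : ℝ) * σ n) ^ (pp n) := by
      rw [← mul_pow]; congr 1; ring
    rw [e2]
    have h5 : (n:ℝ) ^ 2 ≤ K * K ^ (pp n) := by
      have h6 := lt_pp n
      have e3 : K * K ^ (pp n) = Real.exp (4 * (pp n + 1)) := by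
        rw [hK, ← Real.exp_nat_mul, ← Real.exp_add]
        congr 1; ring
      rw [e3]
      calc (n:ℝ) ^ 2 = Real.exp (2 * Real.log n) := by
            rw [show 2 * Real.log n = Real.log n + Real.log n by ring, Real.exp_add, Real.exp_log hn0]; ring
        _ ≤ _ := Real.exp_le_exp.mpr (by linarith)
    have h7 : (1:ℝ) ≤ (K * (1 / (n:ℝ) ^ 2)) * K ^ (pp n) := by
      rw [mul_one_div, div_mul_eq_mul_div, le_div_iff₀ (by positivity), one_mul]
      exact h5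
    calc (2 * (d - c) + 1) * (12 * (pp n : ℝ) * σ n) ^ (pp n)
        = ((2 * (d - c) + 1) * (12 * (pp n : ℝ) * σ n) ^ (pp n)) * 1 := by rw [mul_one]
      _ ≤ ((2 * (d - c) + 1) * (12 * (pp n : ℝ) * σ n) ^ (pp n)) * ((K * (1 / (n:ℝ) ^ 2)) * K ^ (pp n)) := by
          apply mul_le_mul_of_nonneg_left h7 (by positivity)
      _ = _ := by ring) (fun n y => by
    simp only [hg]
    exact Even.pow_nonneg (even_two_mul _) _)
  filter_upwards [hae, ae_err hX h hc hcd (p := 400) le_rfl] with y hy1 hy2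
  have hV1 : ∀ᶠ n : ℕ in atTop, 1 ≤ VV n := by
    have h8 : ∀ᶠ n : ℕ in atTop, Real.exp 1 ≤ Real.log n := log_nat_tendsto.eventually_ge_atTop _
    filter_upwards [h8] with n hn
    have e1 : 1 ≤ Real.log n := by
      have := Real.add_one_le_exp 1
      linarith
    have e2 : 1 ≤ Real.log (Real.log n) := by
      rw [Real.le_log_iff_exp_le (by linarith)]
      exact hn
    unfold VV
    have g1 : 1 ≤ (Real.log n) ^ (1/4:ℝ) := Real.one_le_rpow e1 (by norm_num)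
    have g2 : 1 ≤ (Real.log (Real.log n)) ^ ((3/4) * gam) := Real.one_le_rpow e2 (by
      have := gam_pos
      positivity)
    nlinarith
  filter_upwards [hy1.eventually (gt_mem_nhds (zero_lt_one)), hy2.eventually (Metric.ball_mem_nhds 0 one_pos), hp3, hV1]
    with n k1 k2 k3 k4
  obtain ⟨g1, g2⟩ := YY_props k3
  have hpr : (3:ℝ) ≤ pp n := by exact_mod_cast k3
  have hp0 : (0:ℝ) < pp n := by linarith
  have hs := hσpos n k3
  have hX0 : 0 < K * 12 * pp n * σ n := by positivity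
  have hl0 : 0 < lam n := Real.sqrt_pos.mpr hX0
  -- the high part
  have m1 : |U (ahi (YY (pp n))) φ (pt a b n y) (M n)| ≤ lam n := by
    by_contra hne
    push Not at hne
    have : 1 ≤ g n y := by
      simp only [hg]
      rw [pow_mul, ← sq_abs, abs_div, abs_of_pos hl0]
      apply one_le_pow₀
      apply one_le_pow₀
      rw [le_div_iff₀ hl0]
      linarith
    linarith
  have m2 : lam n ≤ √(K * 12 * C2) * WW (pp n) := by
    have h9 := YY_high k3
    have h10 := WW_nonneg (by linarith : (1:ℝ) ≤ pp n)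
    rw [← Real.sqrt_sq h10, ← Real.sqrt_mul (by positivity)]
    apply Real.sqrt_le_sqrt
    simp only [hσ]
    calc K * 12 * (pp n : ℝ) * (C2 * YY (pp n) ^ (-(1/2):ℝ) * Real.log (YY (pp n)) ^ gam)
        = K * 12 * C2 * ((pp n : ℝ) * (YY (pp n) ^ (-(1/2):ℝ) * Real.log (YY (pp n)) ^ gam)) := by ring
      _ ≤ K * 12 * C2 * (WW (pp n)) ^ 2 := by gcongr
  -- the low part
  have m3 : |U (alo (YY (pp n))) φ (pt a b n y) (M n)| ≤ C1 * WW (pp n) := by
    refine (hlow (YY (pp n)) g1 φ _ _).trans ?_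
    rw [mul_assoc]
    exact mul_le_mul_of_nonneg_left (YY_low k3) hC1.le
  have m4 : WW (pp n) ≤ VV n := by
    rw [VV_eq]
    apply WW_mono (by linarith)
    have := pp_le n
    have := log_nat_nonneg n
    linarith
  have m5 : |E (pt a b n y) - U ag φ (pt a b n y) (M n)| ≤ 1 := by
    rw [Real.dist_eq, sub_zero] at k2
    exact k2.le
  have m6 : |E (pt a b n y)| ≤ 1 + (C1 * WW (pp n) + √(K * 12 * C2) * WW (pp n)) := by
    have e3 : E (pt a b n y) = (E (pt a b n y) - U ag φ (pt a b n y) (M n)) +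
        (U (alo (YY (pp n))) φ (pt a b n y) (M n) + U (ahi (YY (pp n))) φ (pt a b n y) (M n)) := by
      rw [← U_split]; ring
    rw [e3]
    refine (abs_add_le _ _).trans (add_le_add m5 ((abs_add_le _ _).trans (add_le_add m3 (m1.trans m2))))
  refine m6.trans ?_
  have m7 : C1 * WW (pp n) ≤ C1 * VV n := mul_le_mul_of_nonneg_left m4 hC1.le
  have m8 : √(K * 12 * C2) * WW (pp n) ≤ √(K * 12 * C2) * VV n := mul_le_mul_of_nonneg_left m4 (Real.sqrt_nonneg _)
  linarith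

end Run7.h113
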