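import Mathlib
import Pool.Agent.R306.GP.Sums

/-!
Variance of sums of trigonometric polynomials along lacunary points.
-/

set_option autoImplicit false

open MeasureTheory Filter Topology Set Real
open Pool.Agent.H469R2.NK (e norm_e e_add conj_e e_zero)
open Pool.Agent.R306.GP (Sq pt pt_pos pt_cont vdc e_continuous)

namespace Run7.h113

variable {a b : ℕ → ℝ} {δ c d : ℝ}

lemma pt_deriv (a b : ℕ → ℝ) (n : ℕ) (y : ℝ) : HasDerivAt (pt a b n) (a n * pt a b n y) y := by
  unfold pt
  have h1 : HasDerivAt (fun y => a n * y) (a n) y := by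
    simpa using (hasDerivAt_id y).const_mul (a n)
  have h2 := (h1.exp).const_mul (b n)
  refine h2.congr_deriv ?_
  ring

lemma pt_le_of_le (h : Sq a b δ) (n : ℕ) {y z : ℝ} (hyz : y ≤ z) : pt a b n y ≤ pt a b n z := by
  unfold pt
  apply mul_le_mul_of_nonneg_left _ (h.pos n).le
  apply Real.exp_le_exp.mpr
  exact mul_le_mul_of_nonneg_left hyz (by linarith [h.one n])

/-- oscillatory integral with two frequencies -/
lemma dbl_phase (h : Sq a b δ) (hcd : c ≤ d) {ω ω' : ℝ} (hω : ω ≠ 0) {n m : ℕ} (hnm : n < m)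
    (hbig : ∀ y ∈ Icc c d, 2 * |ω'| * pt a b n y ≤ |ω| * pt a b m y) :
    ‖∫ y in c..d, e (pt a b m y * ω + pt a b n y * ω')‖ ≤ (4 + 6 * (d - c)) / (|ω| * pt a b m c) := by
  have hω0 : 0 < |ω| := abs_pos.mpr hω
  have ham := h.one m
  have han := h.one n
  have hanm : a n ≤ a m := by
    have := h.gap' hnm
    have := h.dpos
    linarith
  have hPm := pt_pos h m c
  set P := pt a b m c with hP
  have hl : 0 < |ω| * P / 2 := by positivity
  have h1 := vdc (f := fun y => pt a b m y * ω + pt a b n y * ω')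
    (f' := fun y => a m * pt a b m y * ω + a n * pt a b n y * ω')
    (f'' := fun y => a m * (a m * pt a b m y) * ω + a n * (a n * pt a b n y) * ω') hcd
    (fun y _ => ((pt_deriv a b m y).mul_const ω).add ((pt_deriv a b n y).mul_const ω'))
    (fun y _ => (((pt_deriv a b m y).const_mul (a m)).mul_const ω).add (((pt_deriv a b n y).const_mul (a n)).mul_const ω'))
    (by
      apply Continuous.continuousOn
      exact ((continuous_const.mul (continuous_const.mul (pt_cont a b m))).mul continuous_const).add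
        ((continuous_const.mul (continuous_const.mul (pt_cont a b n))).mul continuous_const))
    hl ?_ (Q := 6 / (|ω| * P)) ?_
  · refine h1.trans (le_of_eq ?_)
    field_simp
    ring
  · intro y hy
    have hb := hbig y hy
    have hpm := pt_pos h m y
    have hpn := pt_pos h n y
    have hPy : P ≤ pt a b m y := pt_le_of_le h m hy.1
    have e1 : |a m * pt a b m y * ω| = a m * pt a b m y * |ω| := by
      rw [abs_mul, abs_of_pos (by positivity)]
    have e2 : |a n * pt a b n y * ω'| = a n * pt a b n y * |ω'| := by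
      rw [abs_mul, abs_of_pos (by positivity)]
    have h2 := abs_sub_abs_le_abs_sub (a m * pt a b m y * ω) (-(a n * pt a b n y * ω'))
    rw [abs_neg, sub_neg_eq_add, e1, e2] at h2
    refine le_trans ?_ h2
    have h3 : a n * pt a b n y * |ω'| ≤ a m * (|ω| * pt a b m y / 2) := by
      calc a n * pt a b n y * |ω'| = a n * (2 * |ω'| * pt a b n y / 2) := by ring
        _ ≤ a n * (|ω| * pt a b m y / 2) := by
            apply mul_le_mul_of_nonneg_left _ (by linarith)
            linarith
        _ ≤ a m * (|ω| * pt a b m y / 2) := mul_le_mul_of_nonneg_right hanm (by positivity)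
    have h4 : |ω| * P / 2 ≤ a m * (|ω| * pt a b m y / 2) := by
      calc |ω| * P / 2 ≤ |ω| * pt a b m y / 2 := by
            have := mul_le_mul_of_nonneg_left hPy hω0.le
            linarith
        _ = 1 * (|ω| * pt a b m y / 2) := (one_mul _).symm
        _ ≤ a m * (|ω| * pt a b m y / 2) := mul_le_mul_of_nonneg_right ham (by positivity)
    have h5 : a m * pt a b m y * |ω| = a m * (|ω| * pt a b m y / 2) + a m * (|ω| * pt a b m y / 2) := by ring
    rw [h5]
    linarith
  · intro y hy
    have hb := hbig y hy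
    have hpm := pt_pos h m y
    have hpn := pt_pos h n y
    have hPy : P ≤ pt a b m y := pt_le_of_le h m hy.1
    have e1 : |a m * pt a b m y * ω| = a m * pt a b m y * |ω| := by
      rw [abs_mul, abs_of_pos (by positivity)]
    have e2 : |a n * pt a b n y * ω'| = a n * pt a b n y * |ω'| := by
      rw [abs_mul, abs_of_pos (by positivity)]
    have h2 := abs_sub_abs_le_abs_sub (a m * pt a b m y * ω) (-(a n * pt a b n y * ω'))
    rw [abs_neg, sub_neg_eq_add, e1, e2] at h2
    set X := |ω| * pt a b m y with hX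
    have hX0 : 0 < X := by positivity
    have h3 : a n * pt a b n y * |ω'| ≤ a m * (X / 2) := by
      calc a n * pt a b n y * |ω'| = a n * (2 * |ω'| * pt a b n y / 2) := by ring
        _ ≤ a n * (X / 2) := by
            apply mul_le_mul_of_nonneg_left _ (by linarith)
            linarith
        _ ≤ a m * (X / 2) := mul_le_mul_of_nonneg_right hanm (by positivity)
    have hlow : a m * (X / 2) ≤ |a m * pt a b m y * ω + a n * pt a b n y * ω'| := by
      refine le_trans ?_ h2
      have h5 : a m * pt a b m y * |ω| = a m * (X / 2) + a m * (X / 2) := by rw [hX]; ring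
      rw [h5]
      linarith
    have hup : |a m * (a m * pt a b m y) * ω + a n * (a n * pt a b n y) * ω'| ≤ (3/2) * (a m) ^ 2 * X := by
      refine (abs_add_le _ _).trans ?_
      have e3 : |a m * (a m * pt a b m y) * ω| = (a m) ^ 2 * X := by
        rw [abs_mul, abs_of_pos (by positivity), hX]; ring
      have e4 : |a n * (a n * pt a b n y) * ω'| ≤ (a m) ^ 2 * (X / 2) := by
        rw [abs_mul, abs_of_pos (by positivity)]
        calc a n * (a n * pt a b n y) * |ω'| = a n * (a n * pt a b n y * |ω'|) := by ring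
          _ ≤ a m * (a m * (X / 2)) := mul_le_mul hanm h3 (by positivity) (by linarith)
          _ = _ := by ring
      rw [e3]
      linarith
    have hsq : (a m * (X / 2)) ^ 2 ≤ (a m * pt a b m y * ω + a n * pt a b n y * ω') ^ 2 := by
      rw [← sq_abs (a m * pt a b m y * ω + a n * pt a b n y * ω')]
      exact pow_le_pow_left₀ (by positivity) hlow 2
    calc |a m * (a m * pt a b m y) * ω + a n * (a n * pt a b n y) * ω'| ≤ (3/2) * (a m) ^ 2 * X := hup
      _ ≤ 6 / (|ω| * P) * (a m * (X / 2)) ^ 2 := by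
          have e7 : 6 / (|ω| * P) * (a m * (X / 2)) ^ 2 = (6 * (a m * (X / 2)) ^ 2) / (|ω| * P) := by ring
          rw [e7, le_div_iff₀ (by positivity)]
          have h6 : |ω| * P ≤ X := mul_le_mul_of_nonneg_left hPy hω0.le
          calc (3/2) * (a m) ^ 2 * X * (|ω| * P) ≤ (3/2) * (a m) ^ 2 * X * X :=
                mul_le_mul_of_nonneg_left h6 (by positivity)
            _ = _ := by ring
      _ ≤ _ := mul_le_mul_of_nonneg_left hsq (by positivity)

/-- product of two centred polynomials -/
lemma cross (h : Sq a b δ) (hcd : c ≤ d) {ι : Type*} {I I' : Finset ι} {cf : ι → ℂ} {fr : ι → ℝ} {η Λ B P : ℝ}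
    (hη : 0 < η) (hP : 0 < P) (hB0 : 0 ≤ B) (hI : ∀ i ∈ I, η ≤ |fr i|) (hI' : ∀ i ∈ I', |fr i| ≤ Λ)
    (hB : ∑ i ∈ I, ‖cf i‖ ≤ B) (hB' : ∑ i ∈ I', ‖cf i‖ ≤ B)
    {n m : ℕ} (hnm : n < m) (hPm : P ≤ pt a b m c)
    (hbig : ∀ y ∈ Icc c d, 2 * Λ * pt a b n y ≤ η * pt a b m y) :
    ‖∫ y in c..d, (∑ i ∈ I, cf i * e (pt a b m y * fr i)) * (∑ i ∈ I', cf i * e (pt a b n y * fr i))‖ ≤
      B ^ 2 * ((4 + 6 * (d - c)) / (η * P)) := by
  have hdc : 0 ≤ d - c := by linarith
  have e1 : ∀ y : ℝ, (∑ i ∈ I, cf i * e (pt a b m y * fr i)) * (∑ i ∈ I', cf i * e (pt a b n y * fr i)) =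
      ∑ i ∈ I, ∑ j ∈ I', (cf i * cf j) * e (pt a b m y * fr i + pt a b n y * fr j) := by
    intro y
    rw [Finset.sum_mul_sum]
    apply Finset.sum_congr rfl
    intro i _
    apply Finset.sum_congr rfl
    intro j _
    rw [e_add]; ring
  have hcont : ∀ i j, Continuous fun y => (cf i * cf j) * e (pt a b m y * fr i + pt a b n y * fr j) := fun i j =>
    continuous_const.mul (e_continuous.comp (((pt_cont a b m).mul continuous_const).add ((pt_cont a b n).mul continuous_const)))
  simp only [e1]
  rw [intervalIntegral.integral_finsetSum]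
  · refine (norm_sum_le _ _).trans ?_
    have h2 : ∀ i ∈ I, ‖∫ y in c..d, ∑ j ∈ I', (cf i * cf j) * e (pt a b m y * fr i + pt a b n y * fr j)‖ ≤
        ‖cf i‖ * (B * ((4 + 6 * (d - c)) / (η * P))) := by
      intro i hi
      rw [intervalIntegral.integral_finsetSum]
      · refine (norm_sum_le _ _).trans ?_
        have h3 : ∀ j ∈ I', ‖∫ y in c..d, (cf i * cf j) * e (pt a b m y * fr i + pt a b n y * fr j)‖ ≤
            ‖cf i‖ * (‖cf j‖ * ((4 + 6 * (d - c)) / (η * P))) := by
          intro j hj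
          rw [intervalIntegral.integral_const_mul, norm_mul, norm_mul, mul_assoc]
          apply mul_le_mul_of_nonneg_left _ (norm_nonneg _)
          apply mul_le_mul_of_nonneg_left _ (norm_nonneg _)
          have hfi := hI i hi
          have hne : fr i ≠ 0 := by
            intro h0
            rw [h0, abs_zero] at hfi
            linarith
          refine (dbl_phase h hcd hne hnm (fun y hy => ?_)).trans ?_
          · have hpm := pt_pos h m y
            have hpn := pt_pos h n y
            calc 2 * |fr j| * pt a b n y ≤ 2 * Λ * pt a b n y := by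
                  apply mul_le_mul_of_nonneg_right _ hpn.le
                  have := hI' j hj
                  linarith
              _ ≤ η * pt a b m y := hbig y hy
              _ ≤ |fr i| * pt a b m y := mul_le_mul_of_nonneg_right hfi hpm.le
          · apply div_le_div_of_nonneg_left (by positivity) (by positivity)
            exact mul_le_mul hfi hPm hP.le (abs_nonneg _)
        refine (Finset.sum_le_sum h3).trans ?_
        rw [← Finset.mul_sum, ← Finset.sum_mul]
        apply mul_le_mul_of_nonneg_left _ (norm_nonneg _)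
        exact mul_le_mul_of_nonneg_right hB' (by positivity)
      · intro j _
        exact (hcont i j).intervalIntegrable _ _
    refine (Finset.sum_le_sum h2).trans ?_
    rw [← Finset.sum_mul]
    calc (∑ i ∈ I, ‖cf i‖) * (B * ((4 + 6 * (d - c)) / (η * P))) ≤ B * (B * ((4 + 6 * (d - c)) / (η * P))) :=
          mul_le_mul_of_nonneg_right hB (by positivity)
      _ = _ := by ring
  · intro i _
    exact (continuous_finsetSum _ fun j _ => hcont i j).intervalIntegrable _ _

open Classical in
/-- **variance of a sum of polynomials at separated points** -/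
theorem var_gen (h : Sq a b δ) (hcd : c ≤ d) {ι : Type*} {I : ℕ → Finset ι} {cf : ι → ℂ} {fr : ι → ℝ} {Ψ : ℕ → ℝ → ℝ} {μ : ℝ}
    {η Λ B P : ℝ} {S : Finset ℕ} (hη : 0 < η) (hP : 0 < P) (hB0 : 0 ≤ B)
    (hΨ : ∀ n ∈ S, ∀ R : ℝ, ((Ψ n R : ℝ) : ℂ) = ∑ i ∈ I n, cf i * e (R * fr i))
    (hμ : ∀ n ∈ S, ∑ i ∈ (I n).filter (fun i => fr i = 0), cf i = (μ : ℂ))
    (hgap : ∀ n ∈ S, ∀ i ∈ I n, fr i ≠ 0 → η ≤ |fr i|) (hΛ : ∀ n ∈ S, ∀ i ∈ I n, |fr i| ≤ Λ)
    (hB : ∀ n ∈ S, ∑ i ∈ I n, ‖cf i‖ ≤ B) (hPm : ∀ n ∈ S, P ≤ pt a b n c)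
    (hbig : ∀ n ∈ S, ∀ m ∈ S, n < m → ∀ y ∈ Icc c d, 2 * Λ * pt a b n y ≤ η * pt a b m y)
    (hcont : ∀ n ∈ S, Continuous (Ψ n)) :
    ∫ y in c..d, (∑ n ∈ S, (Ψ n (pt a b n y) - μ)) ^ 2 ≤
      (∑ n ∈ S, ∫ y in c..d, (Ψ n (pt a b n y) - μ) ^ 2) + (S.card : ℝ) ^ 2 * (B ^ 2 * ((4 + 6 * (d - c)) / (η * P))) := by
  have hdc : 0 ≤ d - c := by linarith
  set I' : ℕ → Finset ι := fun n => (I n).filter (fun i => fr i ≠ 0) with hI'
  have hx : ∀ n ∈ S, ∀ R : ℝ, ((Ψ n R - μ : ℝ) : ℂ) = ∑ i ∈ I' n, cf i * e (R * fr i) := by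
    intro n hn R
    rw [Complex.ofReal_sub, hΨ n hn R, ← hμ n hn, ← Finset.sum_filter_add_sum_filter_not (I n) (fun i => fr i = 0)]
    have h1 : ∑ i ∈ (I n).filter (fun i => fr i = 0), cf i * e (R * fr i) = ∑ i ∈ (I n).filter (fun i => fr i = 0), cf i := by
      apply Finset.sum_congr rfl
      intro i hi
      rw [(Finset.mem_filter.mp hi).2, mul_zero, e_zero, mul_one]
    rw [h1]
    simp only [hI']
    ring
  set x : ℕ → ℝ → ℝ := fun n y => Ψ n (pt a b n y) - μ with hxdef
  have hxc : ∀ n ∈ S, Continuous (x n) := fun n hn => ((hcont n hn).comp (pt_cont a b n)).sub continuous_const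
  have hcr : ∀ n ∈ S, ∀ m ∈ S, n < m → |∫ y in c..d, x m y * x n y| ≤ B ^ 2 * ((4 + 6 * (d - c)) / (η * P)) := by
    intro n hn m hm hnm
    have e2 : ((∫ y in c..d, x m y * x n y : ℝ) : ℂ) =
        ∫ y in c..d, (∑ i ∈ I' m, cf i * e (pt a b m y * fr i)) * (∑ i ∈ I' n, cf i * e (pt a b n y * fr i)) := by
      rw [← intervalIntegral.integral_ofReal]
      apply intervalIntegral.integral_congr
      intro y _
      simp only [hxdef]
      rw [Complex.ofReal_mul, hx m hm, hx n hn]
    rw [← Real.norm_eq_abs, ← Complex.norm_real, e2]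
    refine cross h hcd (Λ := Λ) hη hP hB0 ?_ ?_ ?_ ?_ hnm (hPm m hm) (hbig n hn m hm hnm)
    · intro i hi
      simp only [hI', Finset.mem_filter] at hi
      exact hgap m hm i hi.1 hi.2
    · intro i hi
      simp only [hI', Finset.mem_filter] at hi
      exact hΛ n hn i hi.1
    · exact (Finset.sum_le_sum_of_subset_of_nonneg (Finset.filter_subset _ _) fun _ _ _ => norm_nonneg _).trans (hB m hm)
    · exact (Finset.sum_le_sum_of_subset_of_nonneg (Finset.filter_subset _ _) fun _ _ _ => norm_nonneg _).trans (hB n hn)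
  have e3 : ∫ y in c..d, (∑ n ∈ S, x n y) ^ 2 = ∑ m ∈ S, ∑ n ∈ S, ∫ y in c..d, x m y * x n y := by
    have e4 : ∀ y, (∑ n ∈ S, x n y) ^ 2 = ∑ m ∈ S, ∑ n ∈ S, x m y * x n y := by
      intro y
      rw [sq, Finset.sum_mul_sum]
    simp only [e4]
    rw [intervalIntegral.integral_finsetSum]
    · apply Finset.sum_congr rfl
      intro m hm
      rw [intervalIntegral.integral_finsetSum]
      intro n hn
      exact ((hxc m hm).mul (hxc n hn)).intervalIntegrable _ _
    · intro m hm
      exact (continuous_finsetSum _ fun n hn => (hxc m hm).mul (hxc n hn)).intervalIntegrable _ _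
  rw [show (∫ y in c..d, (∑ n ∈ S, (Ψ n (pt a b n y) - μ)) ^ 2) = ∫ y in c..d, (∑ n ∈ S, x n y) ^ 2 from rfl, e3]
  set W := B ^ 2 * ((4 + 6 * (d - c)) / (η * P)) with hW
  have hW0 : 0 ≤ W := by positivity
  have h6 : ∀ m ∈ S, ∀ n ∈ S, ∫ y in c..d, x m y * x n y ≤ (if m = n then ∫ y in c..d, (x m y) ^ 2 else 0) + W := by
    intro m hm n hn
    rcases lt_trichotomy n m with hlt | heq | hgt
    · rw [if_neg (by omega), zero_add]
      exact (le_abs_self _).trans (hcr n hn m hm hlt)
    · subst heq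
      rw [if_pos rfl]
      have : ∫ y in c..d, x n y * x n y = ∫ y in c..d, (x n y) ^ 2 := by
        apply intervalIntegral.integral_congr
        intro y _
        simp only [sq]
      rw [this]
      linarith
    · rw [if_neg (by omega), zero_add]
      have := (le_abs_self _).trans (hcr m hm n hn hgt)
      refine le_trans (le_of_eq ?_) this
      apply intervalIntegral.integral_congr
      intro y _
      simp only [mul_comm]
  calc ∑ m ∈ S, ∑ n ∈ S, ∫ y in c..d, x m y * x n y
      ≤ ∑ m ∈ S, ∑ n ∈ S, ((if m = n then ∫ y in c..d, (x m y) ^ 2 else 0) + W) :=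
        Finset.sum_le_sum fun m hm => Finset.sum_le_sum fun n hn => h6 m hm n hn
    _ = (∑ n ∈ S, ∫ y in c..d, (x n y) ^ 2) + (S.card : ℝ) ^ 2 * W := by
        simp only [Finset.sum_add_distrib, Finset.sum_const, nsmul_eq_mul]
        have : ∀ m ∈ S, ∑ n ∈ S, (if m = n then ∫ y in c..d, (x m y) ^ 2 else 0) = ∫ y in c..d, (x m y) ^ 2 := by
          intro m hm
          rw [Finset.sum_ite_eq S m, if_pos hm]
        rw [Finset.sum_congr rfl this]
        ring

end Run7.h113
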