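import Mathlib
import Pool.Agent.H383.LinIndep
import Pool.Agent.H383.Exc
import Pool.Agent.W24.Riesz2
import Pool.Agent.W24.Liou
import Pool.Agent.Y969.TM3
import Pool.Agent.R306.GP.Pows

/-!
The Riesz test function.
-/

set_option autoImplicit false

open Finset
open Pool.Agent.H469R2.NK (e norm_e e_add conj_e e_zero)
open Pool.Agent.H383.Gen (U)
open Pool.Agent.H383.AP (chr)
open Pool.Agent.H383.Gauss (sf_indep InC)
open Pool.Agent.Y969.TM (JS sb cf fq U_exp norm_cf sum_norm_cf fq_le)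
open Pool.Agent.W24.Liou (vv vv_pos liou)
open Pool.Agent.W24.Riesz (KK KK_nonneg KK_le KK_eq Z fr sg cc sum_norm_Z norm_Z Z_zero Z_single fr_zero fr_single zero_mem_sg single_mem_sg)
open Pool.Agent.R306.GP (AA AA_nonneg)

namespace Run7.h113

/-- gap for integer combinations of square roots -/
lemma liou_lin {ι : Type*} [Fintype ι] [DecidableEq ι] {g : ι → ℕ} (hg : ∀ i, 1 ≤ g i) (c : ι → ℤ) {B : ℝ} (hB1 : 1 ≤ B)
    (hB : ∑ i, |(c i : ℝ)| * √(g i : ℝ) ≤ B) (hne : ∑ i, (c i : ℝ) * √(g i : ℝ) ≠ 0) :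
    1 ≤ |∑ i, (c i : ℝ) * √(g i : ℝ)| * B ^ (2 ^ Fintype.card ι) := by
  classical
  set c' : Finset ι → ℤ := fun T => ∑ i, if ({i} : Finset ι) = T then c i else 0 with hc
  have hv : ∀ i : ι, vv g {i} = √(g i : ℝ) := by
    intro i; unfold vv; rw [prod_singleton]
  have h1 : ∑ T, (c' T : ℝ) * vv g T = ∑ i, (c i : ℝ) * √(g i : ℝ) := by
    simp only [hc]
    push_cast
    simp only [Finset.sum_mul]
    rw [Finset.sum_comm]
    apply Finset.sum_congr rfl
    intro k _
    rw [Finset.sum_eq_single ({k} : Finset ι)]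
    · rw [if_pos rfl, hv]
    · intro T _ hT
      rw [if_neg (Ne.symm hT), zero_mul]
    · intro h; exact absurd (Finset.mem_univ _) h
  have h2 : ∑ T, |(c' T : ℝ)| * vv g T ≤ ∑ i, |(c i : ℝ)| * √(g i : ℝ) := by
    have h3 : ∀ T, |(c' T : ℝ)| * vv g T ≤ ∑ k, (if ({k} : Finset ι) = T then |(c k : ℝ)| else 0) * vv g T := by
      intro T
      rw [← Finset.sum_mul]
      apply mul_le_mul_of_nonneg_right _ (vv_pos hg T).le
      simp only [hc]
      push_cast
      refine (Finset.abs_sum_le_sum_abs _ _).trans (le_of_eq ?_)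
      apply Finset.sum_congr rfl
      intro k _
      split_ifs <;> simp
    refine (Finset.sum_le_sum (fun T _ => h3 T)).trans (le_of_eq ?_)
    rw [Finset.sum_comm]
    apply Finset.sum_congr rfl
    intro k _
    rw [Finset.sum_eq_single ({k} : Finset ι)]
    · rw [if_pos rfl, hv]
    · intro T _ hT
      rw [if_neg (Ne.symm hT), zero_mul]
    · intro h; exact absurd (Finset.mem_univ _) h
  rw [← h1] at hne ⊢
  exact liou hg c' hB1 (h2.trans hB) hne

/-- independence over the integers of the square roots of squarefree numbers -/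
lemma int_indep (T : Finset ℕ) (hT : ∀ D ∈ T, Squarefree D) (c : ℕ → ℤ) (h : ∑ D ∈ T, (c D : ℝ) * √(D:ℝ) = 0) :
    ∀ D ∈ T, c D = 0 := by
  classical
  have h1 := linearIndependent_iff'.mp sf_indep
  intro D hD
  set T' : Finset {s : ℕ // Squarefree s} := T.attach.image (fun D => ⟨D.1, hT D.1 D.2⟩) with hT'
  have h2 := h1 T' (fun s => ((c s : ℤ) : ℚ)) (by
    rw [← h, hT', sum_image]
    · rw [← sum_attach T]
      apply sum_congr rfl
      intro D _
      rw [Rat.smul_def]
      push_cast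
      rfl
    · intro x _ y _ hxy
      simp only [Subtype.mk.injEq] at hxy
      exact Subtype.ext hxy) ⟨D, hT D hD⟩ (by
    rw [hT', mem_image]
    exact ⟨⟨D, hD⟩, mem_attach _ _, rfl⟩)
  exact_mod_cast h2

variable {S : Finset ℕ}

/-- frequencies of the Riesz product -/
noncomputable def rho (S : Finset ℕ) (ε : S → ℤ) : ℝ := ∑ j : S, (ε j : ℝ) * √((j:ℕ):ℝ)

lemma fr_rho (R : ℝ) (ε : S → ℤ) : fr (fun j : S => R * √((j:ℕ):ℝ)) ε = R * rho S ε := by
  unfold fr rho
  rw [mul_sum]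
  apply sum_congr rfl
  intro j _
  ring

lemma rho_zero : rho S 0 = 0 := by unfold rho; simp

lemma rho_neg (ε : S → ℤ) : rho S (-ε) = -rho S ε := by
  unfold rho
  rw [← sum_neg_distrib]
  apply sum_congr rfl
  intro j _
  simp

/-- extension of a vector by zero -/
noncomputable def ext0 (S : Finset ℕ) (ε : S → ℤ) (D : ℕ) : ℤ := if h : D ∈ S then ε ⟨D, h⟩ else 0

lemma rho_ext (ε : S → ℤ) : rho S ε = ∑ D ∈ S, (ext0 S ε D : ℝ) * √(D:ℝ) := by
  unfold rho
  rw [← sum_coe_sort S (fun D => (ext0 S ε D : ℝ) * √(D:ℝ))]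
  apply sum_congr rfl
  intro j _
  unfold ext0
  rw [dif_pos j.2]

lemma rho_ind0 (hS : ∀ D ∈ S, Squarefree D) {ε : S → ℤ} (h : rho S ε = 0) : ε = 0 := by
  rw [rho_ext] at h
  have h1 := int_indep S hS (ext0 S ε) h
  funext j
  have h2 := h1 j j.2
  unfold ext0 at h2
  rw [dif_pos j.2] at h2
  exact h2

lemma mem_sg {z : ℤ} : z ∈ sg ↔ z = -1 ∨ z = 0 ∨ z = 1 := by
  unfold sg; simp

lemma rho_ind (hS : ∀ D ∈ S, Squarefree D) {ε : S → ℤ} (hε : ε ∈ Fintype.piFinset (fun _ : S => sg)) {m : ℕ} (hm : 1 ≤ m)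
    {σ : Bool} (h : rho S ε + (sb σ : ℝ) * √(m:ℝ) = 0) : ∃ hm : m ∈ S, ε = (-sb σ) • Pi.single ⟨m, hm⟩ 1 := by
  classical
  obtain ⟨D0, t, hst, hsf⟩ := Nat.sq_mul_squarefree m
  have ht : 1 ≤ t := by
    rcases Nat.eq_zero_or_pos t with h | h
    · rw [h] at hst; simp at hst; omega
    · exact h
  have hsb : sb σ = 1 ∨ sb σ = -1 := by unfold sb; split_ifs <;> simp
  have hsq : √(m:ℝ) = t * √(D0:ℝ) := by
    rw [← hst]; push_cast
    rw [Real.sqrt_mul (by positivity), Real.sqrt_sq (Nat.cast_nonneg t)]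
  set c : ℕ → ℤ := fun D => ext0 S ε D + (if D = D0 then sb σ * t else 0) with hc
  have hT : ∀ D ∈ insert D0 S, Squarefree D := by
    intro D hD
    rw [mem_insert] at hD
    rcases hD with rfl | hD
    · exact hsf
    · exact hS D hD
  have hsum : ∑ D ∈ insert D0 S, (c D : ℝ) * √(D:ℝ) = 0 := by
    simp only [hc]
    push_cast
    simp only [add_mul, sum_add_distrib]
    have e1 : ∑ D ∈ insert D0 S, (ext0 S ε D : ℝ) * √(D:ℝ) = rho S ε := by
      rw [rho_ext]
      symm
      apply sum_subset (subset_insert _ _)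
      intro D _ hD
      unfold ext0
      rw [dif_neg hD]; simp
    have e2 : ∑ D ∈ insert D0 S, (if D = D0 then (sb σ : ℝ) * (t:ℝ) else 0) * √(D:ℝ) = (sb σ : ℝ) * √(m:ℝ) := by
      rw [sum_eq_single D0]
      · rw [if_pos rfl, hsq]; ring
      · intro D _ hD
        rw [if_neg hD, zero_mul]
      · intro hD
        exact absurd (mem_insert_self _ _) hD
    rw [e1, e2]
    exact h
  have h1 := int_indep _ hT c hsum
  have hD0 := h1 D0 (mem_insert_self _ _)
  simp only [hc, if_pos] at hD0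
  have hD0S : D0 ∈ S := by
    by_contra hne
    unfold ext0 at hD0
    rw [dif_neg hne] at hD0
    rcases hsb with h2 | h2 <;> rw [h2] at hD0 <;> omega
  have h3 : ε ⟨D0, hD0S⟩ + sb σ * t = 0 := by
    unfold ext0 at hD0
    rw [dif_pos hD0S] at hD0
    exact hD0
  have h4 := (Fintype.mem_piFinset.mp hε) ⟨D0, hD0S⟩
  rw [mem_sg] at h4
  have ht1 : t = 1 := by
    rcases hsb with h2 | h2 <;> rw [h2] at h3 <;> omega
  have hm0 : m = D0 := by rw [← hst, ht1]; ring
  subst hm0
  refine ⟨hD0S, ?_⟩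
  funext j
  rw [Pi.smul_apply, smul_eq_mul]
  by_cases hj : j = ⟨m, hD0S⟩
  · rw [hj, Pi.single_eq_same]
    rw [ht1] at h3
    push_cast at h3
    linarith
  · rw [Pi.single_eq_of_ne hj, mul_zero]
    have hjne : (j:ℕ) ≠ m := fun hh => hj (Subtype.ext hh)
    have h5 := h1 j (mem_insert_of_mem j.2)
    simp only [hc, if_neg hjne, add_zero] at h5
    unfold ext0 at h5
    rw [dif_pos j.2] at h5
    exact h5

/-- the Riesz kernel -/
noncomputable def Kz (S : Finset ℕ) (φ R : ℝ) : ℝ := KK (fun j : S => R * √((j:ℕ):ℝ)) (fun _ => -φ) 1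

lemma Kz_nonneg (φ R : ℝ) : 0 ≤ Kz S φ R := KK_nonneg _ _ _

lemma Kz_le (φ R : ℝ) : Kz S φ R ≤ 2 ^ S.card := by
  have := KK_le (fun j : S => R * √((j:ℕ):ℝ)) (fun _ => -φ) 1
  rwa [Fintype.card_coe] at this

lemma Kz_cont (φ : ℝ) : Continuous (Kz S φ) := by
  unfold Kz KK
  fun_prop

lemma chr_one_e (θ : ℝ) : chr θ 1 = e θ := by
  unfold chr e
  congr 2
  push_cast; ring

lemma Kz_exp (φ R : ℝ) : ((Kz S φ R : ℝ) : ℂ) =
    ∑ ε ∈ Fintype.piFinset (fun _ : S => sg), Z (fun _ : S => -φ) ε * e (R * rho S ε) := by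
  unfold Kz
  rw [KK_eq]
  apply sum_congr rfl
  intro ε _
  rw [fr_rho, chr_one_e]

/-- index set of the test function -/
noncomputable def II (S : Finset ℕ) (M : ℕ) : Finset ((S → ℤ) × Option (ℕ × Bool)) :=
  (Fintype.piFinset (fun _ : S => sg)) ×ˢ (insertNone (JS M))

/-- coefficients of the test function -/
noncomputable def co (S : Finset ℕ) (a : ℕ → ℝ) (φ v : ℝ) (i : (S → ℤ) × Option (ℕ × Bool)) : ℂ :=
  Z (fun _ : S => -φ) i.1 * (match i.2 with
    | none => ((-v : ℝ) : ℂ)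
    | some y => cf a φ y)

/-- frequencies of the test function -/
noncomputable def fo (S : Finset ℕ) (i : (S → ℤ) × Option (ℕ × Bool)) : ℝ :=
  rho S i.1 + (match i.2 with
    | none => 0
    | some y => fq y)

/-- the test function -/
noncomputable def Psi (S : Finset ℕ) (a : ℕ → ℝ) (φ v : ℝ) (M : ℕ) (R : ℝ) : ℝ := Kz S φ R * (U a φ R M - v)

lemma U_cont' (a : ℕ → ℝ) (φ : ℝ) (M : ℕ) : Continuous fun R => U a φ R M := by
  unfold U
  fun_prop

lemma Psi_cont (a : ℕ → ℝ) (φ v : ℝ) (M : ℕ) : Continuous (Psi S a φ v M) := by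
  unfold Psi
  exact (Kz_cont φ).mul ((U_cont' a φ M).sub continuous_const)

lemma Psi_exp (a : ℕ → ℝ) (φ v : ℝ) (M : ℕ) (R : ℝ) : ((Psi S a φ v M R : ℝ) : ℂ) =
    ∑ i ∈ II S M, co S a φ v i * e (R * fo S i) := by
  unfold Psi II
  rw [sum_product]
  push_cast
  rw [Kz_exp, sum_mul]
  apply sum_congr rfl
  intro ε _
  rw [sum_insertNone, U_exp]
  unfold co fo
  simp only [add_zero]
  have h1 : ∀ y : ℕ × Bool, e (R * (rho S ε + fq y)) = e (R * rho S ε) * e (R * fq y) := by
    intro y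
    rw [← e_add]; congr 1; ring
  simp only [h1]
  rw [mul_sub, mul_sum]
  push_cast
  have h2 : ∑ x ∈ JS M, Z (fun _ : S => -φ) ε * cf a φ x * (e (R * rho S ε) * e (R * fq x)) =
      ∑ x ∈ JS M, Z (fun _ : S => -φ) ε * e (R * rho S ε) * (cf a φ x * e (R * fq x)) := by
    apply sum_congr rfl
    intro x _
    ring
  rw [h2]
  ring

lemma co_sum (a : ℕ → ℝ) (φ : ℝ) {v : ℝ} (hv : 0 ≤ v) (M : ℕ) : ∑ i ∈ II S M, ‖co S a φ v i‖ = 2 ^ S.card * (v + AA a M) := by
  unfold II co
  rw [sum_product]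
  have h1 : ∀ ε : S → ℤ, ∑ o ∈ insertNone (JS M), ‖Z (fun _ : S => -φ) ε * (match o with
      | none => ((-v : ℝ) : ℂ)
      | some y => cf a φ y)‖ = ‖Z (fun _ : S => -φ) ε‖ * (v + AA a M) := by
    intro ε
    rw [sum_insertNone]
    simp only [norm_mul]
    rw [← mul_sum, sum_norm_cf, Complex.norm_real, norm_neg, Real.norm_eq_abs, abs_of_nonneg hv]
    unfold AA
    ring
  simp only [h1]
  rw [← sum_mul, sum_norm_Z, Fintype.card_coe]

open Classical in
/-- the zero-frequency part -/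
theorem zero_part (hS : ∀ D ∈ S, Squarefree D) {M : ℕ} (hSM : ∀ D ∈ S, D ≤ M ^ 2) (a : ℕ → ℝ) (φ v : ℝ) :
    ∑ i ∈ (II S M).filter (fun i => fo S i = 0), co S a φ v i = (((1/2) * ∑ D ∈ S, a D - v : ℝ) : ℂ) := by
  have hS1 : ∀ D ∈ S, 1 ≤ D := fun D hD => Nat.one_le_iff_ne_zero.mpr (hS D hD).ne_zero
  rw [sum_filter]
  unfold II
  rw [sum_product_right, sum_insertNone]
  -- the constant term
  have h0 : ∑ ε ∈ Fintype.piFinset (fun _ : S => sg), (if fo S (ε, none) = 0 then co S a φ v (ε, none) else 0) =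
      ((-v : ℝ) : ℂ) := by
    rw [sum_eq_single 0]
    · unfold fo co
      simp only [rho_zero, add_zero, if_true, Z_zero, one_mul]
    · intro ε _ hne
      rw [if_neg]
      unfold fo
      simp only [add_zero]
      exact fun h => hne (rho_ind0 hS h)
    · intro h
      exact absurd zero_mem_sg h
  -- the other terms
  have hpos_mem : ∀ j : S, (Pi.single j 1 : S → ℤ) ∈ Fintype.piFinset (fun _ : S => sg) := by
    intro j
    rw [Fintype.mem_piFinset]
    intro i
    by_cases h : i = j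
    · subst h; simp [sg]
    · rw [Pi.single_eq_of_ne h]; simp [sg]
  have hZp : ∀ j : S, Z (fun _ : S => -φ) (Pi.single j 1) = 1/2 * Complex.exp (((-φ : ℝ) : ℂ) * Complex.I) := by
    intro j
    unfold Z
    rw [Finset.prod_eq_single j]
    · rw [Pi.single_eq_same]
      unfold cc
      rw [if_neg (by norm_num)]
      push_cast
      congr 2
      ring
    · intro i _ hi
      rw [Pi.single_eq_of_ne hi]
      unfold cc
      simp
    · intro h; exact absurd (Finset.mem_univ j) h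
  have h1 : ∀ m ∈ Icc 1 (M^2), ∀ σ : Bool,
      ∑ ε ∈ Fintype.piFinset (fun _ : S => sg), (if fo S (ε, some (m, σ)) = 0 then co S a φ v (ε, some (m, σ)) else 0) =
        if m ∈ S then (((a m / 4 : ℝ)) : ℂ) else 0 := by
    intro m hm σ
    rw [mem_Icc] at hm
    by_cases hmS : m ∈ S
    · rw [if_pos hmS]
      set ε0 : S → ℤ := (-sb σ) • Pi.single ⟨m, hmS⟩ 1 with hε0
      have hmem : ε0 ∈ Fintype.piFinset (fun _ : S => sg) := by
        rw [hε0]
        cases σ
        · simp only [sb, Bool.false_eq_true, if_false, neg_neg, one_smul]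
          exact hpos_mem _
        · simp only [sb, if_true, neg_smul, one_smul]
          exact single_mem_sg _
      have hfo : fo S (ε0, some (m, σ)) = 0 := by
        unfold fo fq
        simp only
        have : rho S ε0 = -(sb σ : ℝ) * √(m:ℝ) := by
          unfold rho
          rw [Finset.sum_eq_single ⟨m, hmS⟩]
          · rw [hε0, Pi.smul_apply, Pi.single_eq_same]; push_cast; simp
          · intro i _ hi
            rw [hε0, Pi.smul_apply, Pi.single_eq_of_ne hi]; simp
          · intro h; exact absurd (Finset.mem_univ _) h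
        rw [this]; ring
      rw [sum_eq_single ε0]
      · rw [if_pos hfo]
        unfold co cf
        simp only
        rw [hε0]
        cases σ
        · simp only [sb, Bool.false_eq_true, if_false, neg_neg, one_smul]
          rw [hZp]
          have e1 : Complex.exp (((-φ : ℝ) : ℂ) * Complex.I) * Complex.exp (((-(((-1:ℤ)) : ℝ) * φ : ℝ) : ℂ) * Complex.I) = 1 := by
            rw [← Complex.exp_add, ← Complex.exp_zero]
            congr 1
            push_cast; ring
          calc 1/2 * Complex.exp (((-φ : ℝ) : ℂ) * Complex.I) * (((a m / 2 : ℝ) : ℂ) *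
                Complex.exp (((-(((-1:ℤ)) : ℝ) * φ : ℝ) : ℂ) * Complex.I))
              = ((a m / 2 : ℝ) : ℂ) / 2 * (Complex.exp (((-φ : ℝ) : ℂ) * Complex.I) *
                Complex.exp (((-(((-1:ℤ)) : ℝ) * φ : ℝ) : ℂ) * Complex.I)) := by ring
            _ = _ := by rw [e1]; push_cast; ring
        · simp only [sb, if_true, neg_smul, one_smul]
          rw [Z_single]
          have e1 : Complex.exp (((-(-φ) : ℝ) : ℂ) * Complex.I) * Complex.exp (((-(((1:ℤ)) : ℝ) * φ : ℝ) : ℂ) * Complex.I) = 1 := by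
            rw [← Complex.exp_add, ← Complex.exp_zero]
            congr 1
            push_cast; ring
          calc 1/2 * Complex.exp (((-(-φ) : ℝ) : ℂ) * Complex.I) * (((a m / 2 : ℝ) : ℂ) *
                Complex.exp (((-(((1:ℤ)) : ℝ) * φ : ℝ) : ℂ) * Complex.I))
              = ((a m / 2 : ℝ) : ℂ) / 2 * (Complex.exp (((-(-φ) : ℝ) : ℂ) * Complex.I) *
                Complex.exp (((-(((1:ℤ)) : ℝ) * φ : ℝ) : ℂ) * Complex.I)) := by ring
            _ = _ := by rw [e1]; push_cast; ring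
      · intro ε hε hne
        rw [if_neg]
        intro h
        unfold fo fq at h
        simp only at h
        obtain ⟨_, h3⟩ := rho_ind hS hε hm.1 h
        exact hne h3
      · intro h
        exact absurd hmem h
    · rw [if_neg hmS]
      apply sum_eq_zero
      intro ε hε
      rw [if_neg]
      intro h
      unfold fo fq at h
      simp only at h
      obtain ⟨h3, _⟩ := rho_ind hS hε hm.1 h
      exact hmS h3
  rw [h0]
  have h2 : ∑ y ∈ JS M, ∑ ε ∈ Fintype.piFinset (fun _ : S => sg), (if fo S (ε, some y) = 0 then co S a φ v (ε, some y) else 0) =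
      ∑ m ∈ Icc 1 (M^2), if m ∈ S then (((a m / 2 : ℝ)) : ℂ) else 0 := by
    unfold JS
    rw [sum_product]
    apply sum_congr rfl
    intro m hm
    rw [Fintype.sum_bool, h1 m hm true, h1 m hm false]
    split_ifs
    · push_cast; ring
    · ring
  rw [h2, ← sum_filter]
  have h3 : (Icc 1 (M^2)).filter (fun m => m ∈ S) = S := by
    ext m
    rw [mem_filter, mem_Icc]
    exact ⟨fun h => h.2, fun h => ⟨⟨hS1 m h, hSM m h⟩, h⟩⟩
  rw [h3]
  push_cast
  rw [mul_sum, ← sum_div]
  push_cast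
  have : ∑ i ∈ S, 1 / 2 * (a i : ℂ) = (∑ i ∈ S, (a i : ℂ)) / 2 := by
    rw [← mul_sum]; ring
  rw [this]; ring

/-- size of the frequencies -/
lemma fo_le {M : ℕ} {B : ℝ} (hB : ∑ D ∈ S, √(D:ℝ) + M ≤ B) {i : (S → ℤ) × Option (ℕ × Bool)} (hi : i ∈ II S M) :
    |fo S i| ≤ B := by
  unfold II at hi
  rw [mem_product] at hi
  have h1 : |rho S i.1| ≤ ∑ D ∈ S, √(D:ℝ) := by
    unfold rho
    rw [← sum_coe_sort S (fun D => √(D:ℝ))]
    refine (abs_sum_le_sum_abs _ _).trans (sum_le_sum fun j _ => ?_)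
    rw [abs_mul, abs_of_nonneg (Real.sqrt_nonneg _)]
    have h2 := Fintype.mem_piFinset.mp hi.1 j
    rw [mem_sg] at h2
    have h3 : |((i.1 j : ℤ) : ℝ)| ≤ 1 := by
      rcases h2 with h | h | h <;> rw [h] <;> norm_num
    calc |((i.1 j : ℤ) : ℝ)| * √((j:ℕ):ℝ) ≤ 1 * √((j:ℕ):ℝ) := mul_le_mul_of_nonneg_right h3 (Real.sqrt_nonneg _)
      _ = _ := one_mul _
  unfold fo
  refine (abs_add_le _ _).trans (le_trans (add_le_add h1 ?_) hB)
  rcases i with ⟨ε, o⟩
  cases o with
  | none => simp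
  | some y =>
    simp only
    have h2 := hi.2
    simp only [some_mem_insertNone] at h2
    exact fq_le h2

/-- gap of the frequencies -/
lemma fo_gap {M : ℕ} (hS : ∀ D ∈ S, Squarefree D) {B : ℝ} (hB1 : 1 ≤ B) (hB : ∑ D ∈ S, √(D:ℝ) + M ≤ B)
    {i : (S → ℤ) × Option (ℕ × Bool)} (hi : i ∈ II S M) (hne : fo S i ≠ 0) :
    1 ≤ |fo S i| * B ^ (2 ^ (S.card + 1)) := by
  classical
  have hS1 : ∀ D ∈ S, 1 ≤ D := fun D hD => Nat.one_le_iff_ne_zero.mpr (hS D hD).ne_zero
  have hi' := hi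
  unfold II at hi
  rw [mem_product] at hi
  have hrb : ∑ j : S, |((i.1 j : ℤ) : ℝ)| * √((j:ℕ):ℝ) ≤ ∑ D ∈ S, √(D:ℝ) := by
    rw [← sum_coe_sort S (fun D => √(D:ℝ))]
    refine sum_le_sum fun j _ => ?_
    have h2 := Fintype.mem_piFinset.mp hi.1 j
    rw [mem_sg] at h2
    have h3 : |((i.1 j : ℤ) : ℝ)| ≤ 1 := by
      rcases h2 with h | h | h <;> rw [h] <;> norm_num
    calc |((i.1 j : ℤ) : ℝ)| * √((j:ℕ):ℝ) ≤ 1 * √((j:ℕ):ℝ) := mul_le_mul_of_nonneg_right h3 (Real.sqrt_nonneg _)
      _ = _ := one_mul _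
  have hM0 : (0:ℝ) ≤ M := Nat.cast_nonneg M
  rcases i with ⟨ε, o⟩
  cases o with
  | none =>
    unfold fo at hne ⊢
    simp only [add_zero] at hne ⊢
    have h1 := liou_lin (g := fun j : S => (j:ℕ)) (fun j => hS1 j j.2) ε hB1 (by
      refine hrb.trans ?_
      linarith) hne
    rw [Fintype.card_coe] at h1
    refine h1.trans ?_
    apply mul_le_mul_of_nonneg_left _ (abs_nonneg _)
    apply pow_le_pow_right₀ hB1
    exact Nat.pow_le_pow_right (by norm_num) (by omega)
  | some y =>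
    have hy := hi.2
    simp only [some_mem_insertNone] at hy
    have hfy := fq_le hy
    have hy1 : 1 ≤ y.1 := by
      unfold JS at hy
      rw [mem_product, mem_Icc] at hy
      exact hy.1.1
    set g : Option S → ℕ := fun o => match o with
      | none => y.1
      | some j => (j:ℕ) with hg
    set c : Option S → ℤ := fun o => match o with
      | none => sb y.2
      | some j => ε j with hc
    have e1 : ∑ o, (c o : ℝ) * √(g o : ℝ) = fo S (ε, some y) := by
      rw [Fintype.sum_option]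
      simp only [hg, hc]
      unfold fo fq rho
      simp only
      ring
    have hsb : |((sb y.2 : ℤ) : ℝ)| = 1 := by unfold sb; split_ifs <;> simp
    have e2 : ∑ o, |(c o : ℝ)| * √(g o : ℝ) ≤ B := by
      rw [Fintype.sum_option]
      simp only [hg, hc]
      unfold fq at hfy
      rw [abs_mul, hsb, abs_of_nonneg (Real.sqrt_nonneg _)] at hfy
      rw [hsb]
      simp only at hrb
      linarith
    rw [← e1] at hne ⊢
    have h1 := liou_lin (g := g) (fun o => by
      cases o with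
      | none => exact hy1
      | some j => exact hS1 j j.2) c hB1 e2 hne
    rw [Fintype.card_option, Fintype.card_coe] at h1
    exact h1

end Run7.h113
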