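import Mathlib
import Pool.Agent.Run7.h113.Up
import Pool.Agent.Run7.h113.Dbl
import Pool.Agent.Run7.h113.RieszT
import Pool.Agent.H452R2.Om.O7

/-!
Preparations for the lower bound.
-/

set_option autoImplicit false

open MeasureTheory Filter Topology Set Real
open Pool.Agent.H383.Gen (U Bd)
open Pool.Agent.H383.Circ (ag ag_nonneg ag_Bd)
open Pool.Agent.R306.GP (Ctx Sq pt pt_pos pt_low AA AA_le AA_nonneg Cp Cp_pos ae_zero' ae_err mom_bd)
open Pool.Agent.H452R2.Om (zz zz_pos zz_gt_two zz_lt_three extract count_sets mert_one rA_prod_ge)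
open Pool.Agent.H383.Gauss (rA)

namespace Run7.h113

/-- sets of squarefree numbers with large coefficients -/
lemma sqf_sets : ∃ c K0 : ℝ, 0 < c ∧ ∀ K : ℝ, K0 ≤ K → ∃ 𝓜 : Finset ℕ, (𝓜.card : ℝ) ≤ K ∧
      (∀ m ∈ 𝓜, Squarefree m ∧ (m:ℝ) ≤ K ^ 3) ∧ c * WW K ≤ ∑ m ∈ 𝓜, ag m := by
  classical
  have hpi := Real.pi_pos
  have hz := zz_gt_two
  obtain ⟨c, K0, hc, h⟩ := extract (a := fun m => if Squarefree m then ag m else 0)
    (fun m => by
      split_ifs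
      · exact ag_nonneg m
      · exact le_rfl) (b := 1 / Real.pi) (by positivity) (fun p => p % 4 = 1) (β := zz / 2) (by linarith)
    (count_sets (fun p => p % 4 = 1) (by linarith) mert_one) (by
      intro S hS
      have hsq : Squarefree (∏ p ∈ S, p) := by
        apply Finset.squarefree_prod_of_pairwise_isCoprime
        · intro i hi j hj hij
          simp only [Function.onFun]
          exact Nat.coprime_iff_isRelPrime.mp ((Nat.coprime_primes (hS i hi).1 (hS j hj).1).mpr hij)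
        · intro i hi
          exact (hS i hi).1.squarefree
      rw [if_pos hsq]
      unfold ag
      have h1 := rA_prod_ge S (fun p hp => ⟨(hS p hp).1, by rcases (hS p hp).2.2 with h | h <;> exact h⟩)
      have h2 : 0 ≤ ((∏ p ∈ S, p : ℕ) : ℝ) ^ (-(3/4):ℝ) := by positivity
      have h4 : (√((∏ p ∈ S, p : ℕ) : ℝ)) ^ (-(3/2):ℝ) = ((∏ p ∈ S, p : ℕ) : ℝ) ^ (-(3/4):ℝ) := by
        rw [Real.sqrt_eq_rpow, ← Real.rpow_mul (Nat.cast_nonneg _)]; norm_num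
      rw [h4]
      calc 1 / Real.pi * 2 ^ S.card * ((∏ p ∈ S, p : ℕ) : ℝ) ^ (-(3/4):ℝ)
          = 2 ^ S.card / Real.pi * ((∏ p ∈ S, p : ℕ) : ℝ) ^ (-(3/4):ℝ) := by ring
        _ ≤ _ := by gcongr)
  refine ⟨c, K0, hc, fun K hK => ?_⟩
  obtain ⟨𝓜, h1, h2, h3⟩ := h K hK
  refine ⟨𝓜.filter Squarefree, ?_, ?_, ?_⟩
  · have : ((𝓜.filter Squarefree).card : ℝ) ≤ (𝓜.card : ℝ) := by exact_mod_cast Finset.card_filter_le _ _
    linarith
  · intro m hm
    rw [Finset.mem_filter] at hm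
    exact ⟨hm.2, (h2 m hm.1).2⟩
  · rw [Finset.sum_filter]
    refine le_trans (le_of_eq ?_) h3
    unfold WW gam
    ring

/-- bound for the frequencies -/
noncomputable def Bk (k : ℕ) : ℝ := 2 ^ ((2 * k + 2) * dg)

/-- the exponent of the gap -/
def ek (k : ℕ) : ℕ := 2 ^ (k / 4 + 1)

lemma quarter {x : ℝ} {q : ℕ} (hq : (q:ℝ) ≤ x ^ 4) (hx : 1 ≤ x) (k : ℕ) : ((q:ℝ)) ^ (k / 4) ≤ x ^ k := by
  calc ((q:ℝ)) ^ (k / 4) ≤ (x ^ 4) ^ (k / 4) := pow_le_pow_left₀ (Nat.cast_nonneg _) hq _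
    _ = x ^ (4 * (k / 4)) := by rw [← pow_mul]
    _ ≤ x ^ k := pow_le_pow_right₀ hx (Nat.mul_div_le k 4)

lemma ek_le (k : ℕ) : (ek k : ℝ) ≤ 2 * (5/4 : ℝ) ^ k := by
  unfold ek
  push_cast
  rw [pow_succ, mul_comm]
  have := quarter (x := 5/4) (q := 2) (by norm_num) (by norm_num) k
  push_cast at this
  linarith

lemma exp_lin {C s : ℝ} (hs : 0 < s) : ∀ᶠ k : ℕ in atTop, C * (((k:ℝ) + 1) * (5/4) ^ k) ≤ s * 2 ^ k := by
  have h1 : Tendsto (fun k : ℕ => ((k:ℝ)) ^ 1 * (5/8 : ℝ) ^ k) atTop (𝓝 0) :=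
    tendsto_pow_const_mul_const_pow_of_lt_one 1 (by norm_num) (by norm_num)
  have h2 : Tendsto (fun k : ℕ => (5/8 : ℝ) ^ k) atTop (𝓝 0) :=
    tendsto_pow_atTop_nhds_zero_of_lt_one (by norm_num) (by norm_num)
  have h3 : Tendsto (fun k : ℕ => C * (((k:ℝ)) ^ 1 * (5/8 : ℝ) ^ k + (5/8 : ℝ) ^ k)) atTop (𝓝 (C * (0 + 0))) :=
    (h1.add h2).const_mul C
  rw [add_zero, mul_zero] at h3
  filter_upwards [h3.eventually (gt_mem_nhds hs)] with k hk
  have e1 : C * (((k:ℝ) + 1) * (5/4) ^ k) = (C * (((k:ℝ)) ^ 1 * (5/8 : ℝ) ^ k + (5/8 : ℝ) ^ k)) * 2 ^ k := by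
    have e2 : (5/4 : ℝ) ^ k = (5/8) ^ k * 2 ^ k := by
      rw [← mul_pow]; norm_num
    rw [e2, pow_one]; ring
  rw [e1]
  exact mul_le_mul_of_nonneg_right hk.le (by positivity)

lemma Bk_ge (k : ℕ) : (4:ℝ) ^ k ≤ Bk k := by
  unfold Bk
  have e1 : (4:ℝ) ^ k = 2 ^ (2 * k) := by rw [pow_mul]; norm_num
  rw [e1]
  apply pow_le_pow_right₀ (by norm_num)
  have : 1 ≤ dg := by unfold dg; norm_num
  nlinarith

lemma Bk_one (k : ℕ) : 1 ≤ Bk k := (one_le_pow₀ (by norm_num)).trans (Bk_ge k)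

lemma Bk_pow {s : ℝ} (hs : 0 < s) : ∀ᶠ k : ℕ in atTop, (Bk k) ^ (ek k + 8) ≤ Real.exp (s * 2 ^ k) := by
  filter_upwards [exp_lin (C := 20 * dg) hs] with k hk
  have hB := Bk_one k
  rw [pow_eq_exp (by linarith) (ek k + 8)]
  apply Real.exp_le_exp.mpr
  refine le_trans ?_ hk
  have h1 : Real.log (Bk k) = ((2 * k + 2) * dg : ℕ) * Real.log 2 := by
    unfold Bk
    rw [Real.log_pow]
  have h2 := ek_le k
  have h3 : (1:ℝ) ≤ (5/4 : ℝ) ^ k := one_le_pow₀ (by norm_num)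
  have h4 : Real.log 2 ≤ 1 := by linarith [Real.log_two_lt_d9]
  have h5 : 0 < Real.log 2 := Real.log_pos (by norm_num)
  rw [h1, Nat.cast_mul, Nat.cast_add]
  have h6 : ((ek k : ℕ) : ℝ) + ((8:ℕ) : ℝ) ≤ 10 * (5/4 : ℝ) ^ k := by
    push_cast
    linarith
  have h7 : ((2 * k + 2 : ℕ) : ℝ) = 2 * ((k:ℝ) + 1) := by push_cast; ring
  rw [h7]
  have hk0 : (0:ℝ) ≤ k := Nat.cast_nonneg k
  have hd0 : (0:ℝ) ≤ dg := Nat.cast_nonneg dg
  calc (((ek k : ℕ) : ℝ) + ((8:ℕ) : ℝ)) * (2 * ((k:ℝ) + 1) * dg * Real.log 2)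
      ≤ (10 * (5/4 : ℝ) ^ k) * (2 * ((k:ℝ) + 1) * dg * 1) := by gcongr
    _ = _ := by ring

/-- the points of a block -/
def Nk (k : ℕ) : Finset ℕ := (Finset.range (2 ^ k)).image (fun i => 4 ^ k + i * 2 ^ k)

lemma Nk_inj (k : ℕ) : Function.Injective (fun i : ℕ => 4 ^ k + i * 2 ^ k) := by
  intro i j h
  simp only at h
  have : 0 < 2 ^ k := by positivity
  have h2 : i * 2 ^ k = j * 2 ^ k := by omega
  exact Nat.eq_of_mul_eq_mul_right this h2

lemma Nk_card (k : ℕ) : (Nk k).card = 2 ^ k := by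
  unfold Nk
  rw [Finset.card_image_of_injective _ (Nk_inj k), Finset.card_range]

lemma Nk_mem {k n : ℕ} (hn : n ∈ Nk k) : 4 ^ k ≤ n ∧ n < 2 * 4 ^ k := by
  unfold Nk at hn
  rw [Finset.mem_image] at hn
  obtain ⟨i, hi, rfl⟩ := hn
  rw [Finset.mem_range] at hi
  have e1 : 4 ^ k = 2 ^ k * 2 ^ k := by rw [← mul_pow]; norm_num
  constructor
  · omega
  · rw [e1]
    have : 0 < 2 ^ k := by positivity
    nlinarith

lemma Nk_sep {k n m : ℕ} (hn : n ∈ Nk k) (hm : m ∈ Nk k) (hnm : n < m) : n + 2 ^ k ≤ m := by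
  unfold Nk at hn hm
  rw [Finset.mem_image] at hn hm
  obtain ⟨i, _, rfl⟩ := hn
  obtain ⟨j, _, rfl⟩ := hm
  have h0 : 0 < 2 ^ k := by positivity
  have h1 : i < j := by
    by_contra hne
    push Not at hne
    have := Nat.mul_le_mul_right (2 ^ k) hne
    omega
  have h2 : (i + 1) * 2 ^ k ≤ j * 2 ^ k := Nat.mul_le_mul_right _ h1
  rw [add_mul, one_mul] at h2
  omega

lemma MM_le {k n : ℕ} (hn : n < 2 * 4 ^ k) : MM n ≤ 2 ^ ((2 * k + 1) * dg) := by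
  unfold MM
  have h1 : n + 1 ≤ 2 ^ (2 * k + 1) := by
    have : 2 ^ (2 * k + 1) = 2 * 4 ^ k := by rw [pow_succ, pow_mul]; norm_num; ring
    omega
  calc (n + 1) ^ dg ≤ (2 ^ (2 * k + 1)) ^ dg := Nat.pow_le_pow_left h1 _
    _ = _ := by rw [← pow_mul]

lemma self_le_MM (n : ℕ) : n ≤ MM n := by
  unfold MM
  have : 1 ≤ dg := by unfold dg; norm_num
  calc n ≤ (n + 1) ^ 1 := by rw [pow_one]; omega
    _ ≤ (n + 1) ^ dg := Nat.pow_le_pow_right (by omega) this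

/-- the frequencies are bounded -/
lemma freq_bd {k n : ℕ} (hn : n < 2 * 4 ^ k) {S : Finset ℕ} (hcard : S.card ≤ k) (hS : ∀ D ∈ S, (D:ℝ) ≤ (k:ℝ) ^ 3)
    (hS1 : ∀ D ∈ S, 1 ≤ D) : ∑ D ∈ S, √(D:ℝ) + (MM n : ℝ) ≤ Bk k := by
  have h2 : 2 ≤ dg := by unfold dg; norm_num
  have hk2 : (k:ℝ) ≤ 2 ^ k := by exact_mod_cast (Nat.lt_two_pow_self).le
  have h1 : ∑ D ∈ S, √(D:ℝ) ≤ (2:ℝ) ^ ((2 * k + 1) * dg) := by
    calc ∑ D ∈ S, √(D:ℝ) ≤ ∑ _D ∈ S, (k:ℝ) ^ 3 := by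
          apply Finset.sum_le_sum
          intro D hD
          have : (1:ℝ) ≤ D := by exact_mod_cast hS1 D hD
          have h3 : √(D:ℝ) ≤ D := by
            rw [Real.sqrt_le_left (by linarith)]
            nlinarith
          exact h3.trans (hS D hD)
      _ = (S.card : ℝ) * (k:ℝ) ^ 3 := by rw [Finset.sum_const, nsmul_eq_mul]
      _ ≤ (k:ℝ) * (k:ℝ) ^ 3 := by
          apply mul_le_mul_of_nonneg_right _ (by positivity)
          exact_mod_cast hcard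
      _ = (k:ℝ) ^ 4 := by ring
      _ ≤ ((2:ℝ) ^ k) ^ 4 := pow_le_pow_left₀ (Nat.cast_nonneg _) hk2 4
      _ = 2 ^ (k * 4) := by rw [← pow_mul]
      _ ≤ _ := by
          apply pow_le_pow_right₀ (by norm_num)
          nlinarith
  have h3 : (MM n : ℝ) ≤ (2:ℝ) ^ ((2 * k + 1) * dg) := by exact_mod_cast MM_le hn
  calc ∑ D ∈ S, √(D:ℝ) + (MM n : ℝ) ≤ (2:ℝ) ^ ((2 * k + 1) * dg) + (2:ℝ) ^ ((2 * k + 1) * dg) := add_le_add h1 h3
    _ = (2:ℝ) ^ ((2 * k + 1) * dg + 1) := by rw [pow_succ]; ring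
    _ ≤ Bk k := by
        unfold Bk
        apply pow_le_pow_right₀ (by norm_num)
        nlinarith

lemma card_pow {k : ℕ} {S : Finset ℕ} (hS : (S.card : ℝ) ≤ (k:ℝ) / 4) : S.card ≤ k / 4 ∧ (4:ℝ) ^ S.card ≤ (3/2 : ℝ) ^ k := by
  have h1 : S.card ≤ k / 4 := by
    rw [Nat.le_div_iff_mul_le (by norm_num)]
    have : (S.card : ℝ) * 4 ≤ k := by linarith
    exact_mod_cast this
  refine ⟨h1, ?_⟩
  calc (4:ℝ) ^ S.card ≤ (4:ℝ) ^ (k / 4) := pow_le_pow_right₀ (by norm_num) h1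
    _ ≤ (3/2 : ℝ) ^ k := by
        have := quarter (x := 3/2) (q := 4) (by norm_num) (by norm_num) k
        exact_mod_cast this

variable {a b : ℕ → ℝ} {δ c d : ℝ}

/-- growth of the points -/
lemma pt_grow (h : Sq a b δ) (hc : 0 ≤ c) {n m q : ℕ} (hnm : n + q ≤ m) {y : ℝ} (hy : c ≤ y) :
    pt a b n y * Real.exp (δ * q * c) ≤ pt a b m y := by
  have h1 : ∀ q : ℕ, a n + δ * q ≤ a (n + q) := by
    intro q
    induction q with
    | zero => simp
    | succ q ih =>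
      have := h.gap (n + q)
      push_cast
      rw [← add_assoc]
      linarith
  have hmono : Monotone a := monotone_nat_of_le_succ (fun k => by have := h.gap k; have := h.dpos; linarith)
  have h2 : a n + δ * q ≤ a m := (h1 q).trans (hmono hnm)
  unfold pt
  have hy0 : 0 ≤ y := hc.trans hy
  calc b n * Real.exp (a n * y) * Real.exp (δ * q * c) = b n * Real.exp (a n * y + δ * q * c) := by
        rw [mul_assoc, ← Real.exp_add]
    _ ≤ b m * Real.exp (a m * y) := by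
        apply mul_le_mul (h.mono (by omega)) _ (Real.exp_pos _).le (h.pos m).le
        apply Real.exp_le_exp.mpr
        have h3 := mul_le_mul_of_nonneg_right h2 hy0
        have hq : 0 ≤ δ * q := mul_nonneg h.dpos.le (Nat.cast_nonneg _)
        have h4 := mul_le_mul_of_nonneg_left hy hq
        nlinarith

/-- growth of the extremal order under scaling -/
lemma WW_scale {x : ℝ} (hx : 8 ≤ x) : WW (8 * x) ≤ 4 * WW x := by
  unfold WW
  have hg := gam_pos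
  have hg2 := gam_lt
  have hx0 : 0 < x := by linarith
  have hlx : 0 < Real.log x := Real.log_pos (by linarith)
  have h1 : Real.log (8 * x) ≤ 2 * Real.log x := by
    rw [Real.log_mul (by norm_num) hx0.ne']
    have := Real.log_le_log (by norm_num) hx
    linarith
  have h2 : (Real.log (8 * x)) ^ ((3/4) * gam) ≤ 2 * (Real.log x) ^ ((3/4) * gam) := by
    calc (Real.log (8 * x)) ^ ((3/4) * gam) ≤ (2 * Real.log x) ^ ((3/4) * gam) :=
          Real.rpow_le_rpow (Real.log_nonneg (by linarith)) h1 (by positivity)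
      _ = 2 ^ ((3/4) * gam) * (Real.log x) ^ ((3/4) * gam) := Real.mul_rpow (by norm_num) hlx.le
      _ ≤ 2 ^ (1:ℝ) * (Real.log x) ^ ((3/4) * gam) := by
          apply mul_le_mul_of_nonneg_right _ (by positivity)
          exact Real.rpow_le_rpow_of_exponent_le (by norm_num) (by linarith)
      _ = _ := by rw [Real.rpow_one]
  have h3 : (8 * x) ^ (1/4:ℝ) ≤ 2 * x ^ (1/4:ℝ) := by
    rw [Real.mul_rpow (by norm_num) hx0.le]
    apply mul_le_mul_of_nonneg_right _ (by positivity)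
    calc (8:ℝ) ^ (1/4:ℝ) ≤ (16:ℝ) ^ (1/4:ℝ) := Real.rpow_le_rpow (by norm_num) (by norm_num) (by norm_num)
      _ = ((2:ℝ) ^ (4:ℝ)) ^ (1/4:ℝ) := by norm_num
      _ = 2 := by rw [← Real.rpow_mul (by norm_num)]; norm_num
  calc (8 * x) ^ (1/4:ℝ) * (Real.log (8 * x)) ^ ((3/4) * gam) ≤ (2 * x ^ (1/4:ℝ)) * (2 * (Real.log x) ^ ((3/4) * gam)) := by
        apply mul_le_mul h3 h2 (Real.rpow_nonneg (Real.log_nonneg (by linarith)) _) (by positivity)
    _ = _ := by ring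

lemma WW_tendsto : Tendsto WW atTop atTop := by
  have h1 : Tendsto (fun x : ℝ => x ^ (1/4:ℝ)) atTop atTop := tendsto_rpow_atTop (by norm_num)
  refine tendsto_atTop_mono' atTop ?_ h1
  filter_upwards [eventually_ge_atTop (Real.exp 1)] with x hx
  have hx0 : 0 < x := (Real.exp_pos 1).trans_le hx
  have h2 : 1 ≤ Real.log x := by rw [Real.le_log_iff_exp_le hx0]; exact hx
  unfold WW
  have h3 : 1 ≤ (Real.log x) ^ ((3/4) * gam) := Real.one_le_rpow h2 (by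
    have := gam_pos
    positivity)
  have h4 : 0 ≤ x ^ (1/4:ℝ) := by positivity
  nlinarith

end Run7.h113
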