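import Mathlib
import Pool.Agent.Run7.h113.LowB
import Pool.Agent.R306.GP.CircIID

/-!
The maximal order of the error term of the circle problem along almost every geometric progression.
-/

set_option autoImplicit false

open MeasureTheory Filter Topology Set Real
open Pool.Agent.H383.Gen (U Bd)
open Pool.Agent.H383.Circ (ag ag_nonneg ag_Bd ag_zero wg_Wt En_Sand)
open Pool.Agent.H383.Gauss (En)
open Pool.Agent.R306.GP (Ctx Sq pt pt_pos ae_pos ae_exp)

namespace Run7.h113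

lemma U_flip (φ R : ℝ) (M : ℕ) : U ag (φ + Real.pi) R M = - U ag φ R M := by
  unfold U
  rw [← Finset.sum_neg_distrib]
  apply Finset.sum_congr rfl
  intro m _
  rw [show 2 * Real.pi * (R * √(m:ℝ)) - (φ + Real.pi) = 2 * Real.pi * (R * √(m:ℝ)) - φ - Real.pi by ring,
    Real.cos_sub_pi]
  ring

lemma Ctx_neg {E : ℝ → ℝ} {φ : ℝ} (hX : Ctx E ag φ) : Ctx (fun x => -E x) ag (φ + Real.pi) := by
  refine ⟨hX.bd, hX.meas.neg, fun c d hcd => ?_⟩
  obtain ⟨C, hC, ρ, hρ, h⟩ := hX.l2 c d hcd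
  refine ⟨C, hC, ρ, hρ, fun A b hA hb hρb M hM hMb => ?_⟩
  have h1 := h A b hA hb hρb M hM hMb
  have e : ∀ y : ℝ, (-E (b * Real.exp (A * y)) - U ag (φ + Real.pi) (b * Real.exp (A * y)) M) ^ 2 =
      (E (b * Real.exp (A * y)) - U ag φ (b * Real.exp (A * y)) M) ^ 2 := by
    intro y
    rw [U_flip]
    ring
  simp only [e]
  exact h1

lemma VV_shift (n0 : ℕ) : ∀ᶠ N : ℕ in atTop, VV ((N + n0 : ℕ) : ℝ) ≤ 4 * VV N := by
  filter_upwards [eventually_ge_atTop (n0 + 2), log_nat_tendsto.eventually_ge_atTop 8] with N hN hl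
  rw [VV_eq, VV_eq]
  refine (WW_mono ?_ ?_).trans (WW_scale hl)
  · have h1 : Real.log (N:ℝ) ≤ Real.log ((N + n0 : ℕ) : ℝ) := by
      apply Real.log_le_log
      · have : 0 < N := by omega
        exact_mod_cast this
      · push_cast
        have : (0:ℝ) ≤ n0 := Nat.cast_nonneg _
        linarith
    linarith
  · have h1 : ((N + n0 : ℕ) : ℝ) ≤ (N:ℝ) ^ 2 := by
      have : N + n0 ≤ N ^ 2 := by nlinarith
      exact_mod_cast this
    have h2 : Real.log ((N + n0 : ℕ) : ℝ) ≤ Real.log ((N:ℝ) ^ 2) := by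
      apply Real.log_le_log _ h1
      have : 0 < N + n0 := by omega
      exact_mod_cast this
    rw [Real.log_pow, Nat.cast_ofNat] at h2
    linarith

lemma VV_tendsto : Tendsto (fun N : ℕ => VV (N:ℝ)) atTop atTop :=
  WW_tendsto.comp log_nat_tendsto

lemma VV_mono_ev : ∀ᶠ n : ℕ in atTop, ∀ N : ℕ, n ≤ N → VV (n:ℝ) ≤ VV (N:ℝ) := by
  filter_upwards [log_nat_tendsto.eventually_ge_atTop 1, eventually_ge_atTop 1] with n hn hn1 N hnN
  rw [VV_eq, VV_eq]
  apply WW_mono hn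
  apply Real.log_le_log
  · exact_mod_cast hn1
  · exact_mod_cast hnN

/-- **the maximal order along almost every geometric progression** -/
theorem max_main : ∃ c C : ℝ, 0 < c ∧ 0 < C ∧ ∀ (a b : ℕ → ℝ) (δ : ℝ), 0 < δ → (∀ n, a n + δ ≤ a (n + 1)) →
    (∀ n, 0 < b n) → Monotone b → ∀ᵐ α : ℝ, 1 < α → ∀ᶠ N : ℕ in atTop,
      (∀ n ≤ N, |En (b n * α ^ (a n))| ≤ C * VV N) ∧
      (∃ n : ℕ, N ≤ 8 * n ∧ n < N ∧ c * VV N ≤ En (b n * α ^ (a n))) ∧
      (∃ n : ℕ, N ≤ 8 * n ∧ n < N ∧ En (b n * α ^ (a n)) ≤ -(c * VV N)) := by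
  obtain ⟨C0, hC0, hS⟩ := En_Sand
  have hX := Ctx.of ag_Bd ag_zero wg_Wt hC0 hS Pool.Agent.R306.Circ.En_meas
  obtain ⟨C, hC, hup⟩ := up_ae hX
  obtain ⟨c1, hc1, hlow1⟩ := low_ae hX
  obtain ⟨c2, hc2, hlow2⟩ := low_ae (Ctx_neg hX)
  refine ⟨min c1 c2 / 4, C, by positivity, hC, ?_⟩
  intro a b δ hδ hgap hb hmono
  have hlow : ∀ n : ℕ, a 0 + δ * n ≤ a n := by
    intro n
    induction n with
    | zero => simp
    | succ n ih =>
      have := hgap n
      push_cast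
      linarith
  obtain ⟨n0, hn0⟩ := exists_nat_ge ((1 - a 0) / δ)
  have hone : ∀ n : ℕ, 1 ≤ a (n + n0) := by
    intro n
    have h1 := hlow (n + n0)
    rw [div_le_iff₀ hδ] at hn0
    push_cast at h1
    have h2 : (0:ℝ) ≤ n := Nat.cast_nonneg n
    nlinarith
  have hSq : Sq (fun n => a (n + n0)) (fun n => b (n + n0)) (min δ 1) :=
    ⟨lt_min hδ one_pos, min_le_right _ _, hone, fun n => by
      have h1 := hgap (n + n0)
      have h2 := min_le_left δ 1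
      show a (n + n0) + min δ 1 ≤ a (n + 1 + n0)
      have h3 : n + 1 + n0 = n + n0 + 1 := by ring
      rw [h3]
      linarith, fun n => hb _, fun n m hnm => hmono (by omega)⟩
  apply ae_exp
  have hall : ∀ᵐ y : ℝ, 0 < y →
      (∀ᶠ n : ℕ in atTop, |En (pt (fun n => a (n + n0)) (fun n => b (n + n0)) n y)| ≤ C * VV n) ∧
      (∀ᶠ N : ℕ in atTop, ∃ n : ℕ, N ≤ 8 * n ∧ n < N ∧ c1 * VV N ≤ En (pt (fun n => a (n + n0)) (fun n => b (n + n0)) n y)) ∧
      (∀ᶠ N : ℕ in atTop, ∃ n : ℕ, N ≤ 8 * n ∧ n < N ∧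
        c2 * VV N ≤ -En (pt (fun n => a (n + n0)) (fun n => b (n + n0)) n y)) := by
    apply ae_pos
    intro c d hc hcd
    filter_upwards [hup _ _ _ c d hSq hc hcd.le, hlow1 _ _ _ c d hSq hc hcd.le, hlow2 _ _ _ c d hSq hc hcd.le]
      with y h1 h2 h3
    exact ⟨h1, h2, h3⟩
  filter_upwards [hall] with y hy hy0
  obtain ⟨h1, h2, h3⟩ := hy hy0
  have hpt : ∀ n : ℕ, pt (fun n => a (n + n0)) (fun n => b (n + n0)) n y = b (n + n0) * Real.exp y ^ a (n + n0) := by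
    intro n
    unfold pt
    rw [← Real.exp_mul, mul_comm y]
  simp only [hpt] at h1 h2 h3
  -- transfer
  have hVp : ∀ᶠ N : ℕ in atTop, (0:ℝ) ≤ VV N := VV_tendsto.eventually_ge_atTop 0
  have t1 : ∀ᶠ n : ℕ in atTop, |En (b n * Real.exp y ^ a n)| ≤ C * VV n := by
    obtain ⟨n1, hn1⟩ := eventually_atTop.mp (h1.and VV_mono_ev)
    filter_upwards [eventually_ge_atTop (n1 + n0)] with n hn
    obtain ⟨g1, g2⟩ := hn1 (n - n0) (by omega)
    have e1 : n - n0 + n0 = n := by omega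
    rw [e1] at g1
    exact g1.trans (mul_le_mul_of_nonneg_left (g2 n (by omega)) hC.le)
  have key : ∀ (F : ℕ → ℝ) (c' : ℝ), 0 < c' → min c1 c2 ≤ c' →
      (∀ᶠ N : ℕ in atTop, ∃ n : ℕ, N ≤ 8 * n ∧ n < N ∧ c' * VV N ≤ F (n + n0)) →
      ∀ᶠ N : ℕ in atTop, ∃ n : ℕ, N ≤ 8 * n ∧ n < N ∧ min c1 c2 / 4 * VV N ≤ F n := by
    intro F c' hc' hmin hF
    obtain ⟨N1, hN1⟩ := eventually_atTop.mp (hF.and ((VV_shift n0).and hVp))
    filter_upwards [eventually_ge_atTop (N1 + n0)] with N hN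
    obtain ⟨⟨n, g1, g2, g3⟩, g4, g5⟩ := hN1 (N - n0) (by omega)
    refine ⟨n + n0, by omega, by omega, ?_⟩
    have e1 : N - n0 + n0 = N := by omega
    rw [e1] at g4
    have hm : 0 < min c1 c2 := lt_min hc1 hc2
    calc min c1 c2 / 4 * VV N ≤ min c1 c2 / 4 * (4 * VV ((N - n0 : ℕ) : ℝ)) :=
          mul_le_mul_of_nonneg_left g4 (by positivity)
      _ = min c1 c2 * VV ((N - n0 : ℕ) : ℝ) := by ring
      _ ≤ c' * VV ((N - n0 : ℕ) : ℝ) := mul_le_mul_of_nonneg_right hmin g5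
      _ ≤ _ := g3
  have t2 := key (fun n => En (b n * Real.exp y ^ a n)) c1 hc1 (min_le_left _ _) h2
  have t3 := key (fun n => -En (b n * Real.exp y ^ a n)) c2 hc2 (min_le_right _ _) h3
  obtain ⟨n1, hn1⟩ := eventually_atTop.mp (t1.and VV_mono_ev)
  -- the finitely many initial terms
  have hfin : ∀ᶠ N : ℕ in atTop, ∀ n ∈ Finset.range n1, |En (b n * Real.exp y ^ a n)| ≤ C * VV N := by
    have hCV : Tendsto (fun N : ℕ => C * VV (N:ℝ)) atTop atTop := VV_tendsto.const_mul_atTop hC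
    have := hCV.eventually_ge_atTop (∑ n ∈ Finset.range n1, |En (b n * Real.exp y ^ a n)|)
    filter_upwards [this] with N hN n hn
    exact (Finset.single_le_sum (f := fun n => |En (b n * Real.exp y ^ a n)|) (fun _ _ => abs_nonneg _) hn).trans hN
  filter_upwards [t2, t3, hfin] with N g2 g3 g4
  refine ⟨fun n hn => ?_, g2, ?_⟩
  · rcases lt_or_ge n n1 with h | h
    · exact g4 n (Finset.mem_range.mpr h)
    · obtain ⟨q1, q2⟩ := hn1 n h
      exact q1.trans (mul_le_mul_of_nonneg_left (q2 N hn) hC.le)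
  · obtain ⟨n, q1, q2, q3⟩ := g3
    exact ⟨n, q1, q2, by linarith⟩

end Run7.h113
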